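import Mathlib

/-!
# Project GB (helper286): an identity of Parseval type gives the Plancherel identity
-/

set_option autoImplicit false

open Filter Topology MeasureTheory FourierTransform SchwartzMap
open scoped ContDiff

namespace Pool.Agent.Q151.GB

theorem fourier_flip {f g : ℝ → ℂ} (hf : Integrable f) (hg : Integrable g) :
    ∫ x, 𝓕 g x * f x = ∫ x, g x * 𝓕 f x := by
  have h := VectorFourier.integral_fourierIntegral_smul_eq_flip (L := innerₗ ℝ)
    (μ := (volume : Measure ℝ)) (ν := (volume : Measure ℝ)) (f := g) (g := f)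
    Real.continuous_fourierChar continuous_inner hg hf
  simpa [smul_eq_mul] using! h

theorem l2_norm (F : Lp ℂ 2 (volume : Measure ℝ)) : ‖F‖ ^ 2 = ∫ x, ‖F x‖ ^ 2 := by
  have h6 := L2.inner_def (𝕜 := ℂ) F F
  rw [inner_self_eq_norm_sq_to_K] at h6
  have h7 : ((‖F‖ ^ 2 : ℝ) : ℂ) = ((∫ x, ‖F x‖ ^ 2 : ℝ) : ℂ) := by
    rw [← integral_complex_ofReal]
    push_cast
    refine Eq.trans ?_ (h6.trans ?_)
    · rfl
    · apply integral_congr_ae
      filter_upwards with x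
      rw [inner_self_eq_norm_sq_to_K]
      rfl
  exact_mod_cast h7

/-- if `∫ g u = ∫ (𝓕⁻ g) H` for all test functions `g`, then `u` is the inverse Fourier transform of `H ∈ L²` -/
theorem l2_id {H u : ℝ → ℂ} (hH : MemLp H 2) (hu : LocallyIntegrable u)
    (h : ∀ g : ℝ → ℝ, ContDiff ℝ ∞ g → HasCompactSupport g →
      ∫ x, ((g x : ℝ) : ℂ) * u x = ∫ ξ, (𝓕⁻ (fun x => ((g x : ℝ) : ℂ))) ξ * H ξ) :
    MemLp u 2 ∧ ∫ x, ‖u x‖ ^ 2 = ∫ x, ‖H x‖ ^ 2 := by
  obtain ⟨G, hG⟩ : ∃ G : Lp ℂ 2 (volume : Measure ℝ), G = 𝓕⁻ (hH.toLp H) := ⟨_, rfl⟩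
  have hae : ∀ᵐ x, (G : ℝ → ℂ) x = u x := by
    apply ae_eq_of_integral_contDiff_smul_eq
    · exact (Lp.memLp _).locallyIntegrable one_le_two
    · exact hu
    intro g g_smooth g_cpt
    have hg₁ : HasCompactSupport (Complex.ofRealCLM ∘ g) := g_cpt.comp_left rfl
    have hg₂ : ContDiff ℝ ∞ (Complex.ofRealCLM ∘ g) := by fun_prop
    obtain ⟨P, hP⟩ : ∃ P : 𝓢(ℝ, ℂ), P = hg₁.toSchwartzMap hg₂ := ⟨_, rfl⟩
    have hGg : ∀ x, P x = ((g x : ℝ) : ℂ) := fun x => by rw [hP]; rfl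
    have e1 : ∫ x, g x • (G : ℝ → ℂ) x = ((G : Lp ℂ 2 (volume : Measure ℝ)) : 𝓢'(ℝ, ℂ)) P := by
      rw [Lp.toTemperedDistribution_apply]
      apply integral_congr_ae
      filter_upwards with x
      rw [hGg, Complex.real_smul, smul_eq_mul]
    rw [e1, hG, ← Lp.fourierInv_toTemperedDistribution_eq, TemperedDistribution.fourierInv_apply,
      Lp.toTemperedDistribution_apply]
    have e2 : ∫ x, (𝓕⁻ P) x • (hH.toLp H) x = ∫ x, 𝓕⁻ (P : ℝ → ℂ) x * H x := by
      apply integral_congr_ae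
      filter_upwards [hH.coeFn_toLp] with x hx
      rw [hx, smul_eq_mul, SchwartzMap.fourierInv_coe]
    have e3 : (P : ℝ → ℂ) = fun x => ((g x : ℝ) : ℂ) := funext hGg
    rw [e2, e3, ← h g g_smooth g_cpt]
    apply integral_congr_ae
    filter_upwards with x
    rw [Complex.real_smul]
  have h4 : MemLp u 2 := (memLp_congr_ae hae).1 (Lp.memLp _)
  refine ⟨h4, ?_⟩
  have h5 : ‖G‖ ^ 2 = ‖hH.toLp H‖ ^ 2 := by
    have : ‖𝓕 G‖ = ‖G‖ := Lp.norm_fourier_eq G
    rw [hG] at this ⊢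
    rw [← this]
    congr 2
    exact (fourier_fourierInv_eq _)
  rw [l2_norm, l2_norm] at h5
  have e1 : ∫ x, ‖(G : ℝ → ℂ) x‖ ^ 2 = ∫ x, ‖u x‖ ^ 2 := by
    apply integral_congr_ae
    filter_upwards [hae] with x hx
    rw [hx]
  have e2 : ∫ x, ‖(hH.toLp H) x‖ ^ 2 = ∫ x, ‖H x‖ ^ 2 := by
    apply integral_congr_ae
    filter_upwards [hH.coeFn_toLp] with x hx
    rw [hx]
  rw [e1, e2] at h5
  exact h5

/-! ## the Laplace transform of a test function -/

/-- the two-sided Laplace transform -/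
noncomputable def lap (g : ℝ → ℂ) (z : ℂ) : ℂ := ∫ v : ℝ, g v * Complex.exp (z * v)

theorem lap_diff {g : ℝ → ℂ} (hc : Continuous g) (hs : HasCompactSupport g) :
    Differentiable ℂ (lap g) := by
  intro z0
  obtain ⟨T, hT⟩ := hs.isBounded.subset_closedBall (0 : ℝ)
  have hT' : ∀ v, g v ≠ 0 → |v| ≤ T := by
    intro v hv
    have h1 := hT (subset_closure hv)
    simpa [Real.dist_eq] using h1
  have hgi : Integrable g := hc.integrable_of_hasCompactSupport hs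
  have key := hasDerivAt_integral_of_dominated_loc_of_deriv_le (𝕜 := ℂ) (μ := volume)
    (F := fun (z : ℂ) (u : ℝ) => g u * Complex.exp (z * u))
    (F' := fun (z : ℂ) (u : ℝ) => g u * (Complex.exp (z * u) * u))
    (x₀ := z0) (s := Metric.ball z0 1) (bound := fun u => ‖g u‖ * (Real.exp ((‖z0‖ + 1) * |T|) * |T|))
    (Metric.ball_mem_nhds z0 one_pos) ?_ ?_ ?_ ?_ ?_ ?_
  · exact key.2.differentiableAt
  · refine Eventually.of_forall fun z => ?_
    exact (by fun_prop : Continuous fun u : ℝ => g u * Complex.exp (z * u)).aestronglyMeasurable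
  · have hc2 : Continuous fun u : ℝ => g u * Complex.exp (z0 * u) := by fun_prop
    refine hc2.integrable_of_hasCompactSupport ?_
    exact hs.mul_right
  · exact (by fun_prop : Continuous fun u : ℝ => g u * (Complex.exp (z0 * u) * u)).aestronglyMeasurable
  · refine Eventually.of_forall fun u z hz => ?_
    by_cases hu : g u = 0
    · simp [hu]
    · have hu1 := (hT' u hu).trans (le_abs_self T)
      have hz1 : ‖z‖ ≤ ‖z0‖ + 1 := by
        have h5 : ‖z - z0‖ < 1 := by simpa [dist_eq_norm] using hz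
        have h6 : ‖z‖ ≤ ‖z - z0‖ + ‖z0‖ := by
          have := norm_add_le (z - z0) z0
          simpa using this
        linarith
      rw [norm_mul, norm_mul, Complex.norm_exp, Complex.norm_real, Real.norm_eq_abs]
      have h1 : (z * (u : ℂ)).re ≤ (‖z0‖ + 1) * |T| := by
        refine (Complex.re_le_norm _).trans ?_
        rw [norm_mul, Complex.norm_real, Real.norm_eq_abs]
        exact mul_le_mul hz1 hu1 (abs_nonneg _) (by positivity)
      gcongr
  · exact (hgi.norm.mul_const _)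
  · refine Eventually.of_forall fun u z hz => ?_
    have h1 : HasDerivAt (fun z : ℂ => z * (u : ℂ)) (u : ℂ) z := by
      simpa using (hasDerivAt_id z).mul_const (u : ℂ)
    have h2 := h1.cexp
    exact h2.const_mul _

theorem lap_parts {g : ℝ → ℂ} (hg : ContDiff ℝ 1 g) (hs : HasCompactSupport g) (z : ℂ) :
    z * lap g z = -lap (deriv g) z := by
  have hc := hg.continuous
  have hc' : Continuous (deriv g) := hg.continuous_deriv le_rfl
  have h1 : ∀ v : ℝ, HasDerivAt (fun v : ℝ => g v * Complex.exp (z * v))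
      (deriv g v * Complex.exp (z * v) + g v * (Complex.exp (z * v) * z)) v := by
    intro v
    have h2 : HasDerivAt (fun v : ℝ => z * (v : ℂ)) z v := by
      simpa using (Complex.ofRealCLM.hasDerivAt (x := v)).const_mul z
    exact ((hg.differentiable one_ne_zero v).hasDerivAt).mul h2.cexp
  have hi1 : Integrable fun v : ℝ => deriv g v * Complex.exp (z * v) := by
    have hc2 : Continuous fun u : ℝ => deriv g u * Complex.exp (z * u) := by fun_prop
    exact hc2.integrable_of_hasCompactSupport hs.deriv.mul_right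
  have hi2 : Integrable fun v : ℝ => g v * Complex.exp (z * v) := by
    have hc2 : Continuous fun u : ℝ => g u * Complex.exp (z * u) := by fun_prop
    exact hc2.integrable_of_hasCompactSupport hs.mul_right
  have hi3 : Integrable fun v : ℝ => g v * (Complex.exp (z * v) * z) := by
    refine (hi2.mul_const z).congr (Eventually.of_forall fun v => ?_)
    beta_reduce
    ring
  have h3 := integral_eq_zero_of_hasDerivAt_of_integrable h1 (hi1.add hi3) hi2
  have h4 : (∫ v : ℝ, deriv g v * Complex.exp (z * v)) +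
      ∫ v : ℝ, g v * (Complex.exp (z * v) * z) = 0 := by
    rw [← integral_add hi1 hi3]
    exact h3
  have h5 : ∫ v : ℝ, g v * (Complex.exp (z * v) * z) = z * lap g z := by
    unfold lap
    rw [← integral_const_mul]
    congr 1
    funext v
    ring
  rw [h5] at h4
  have h6 : lap (deriv g) z = ∫ v : ℝ, deriv g v * Complex.exp (z * v) := rfl
  rw [h6]
  linear_combination h4

theorem lap_decay0 (b : ℝ) (J : ℕ) : ∀ g : ℝ → ℂ, ContDiff ℝ ∞ g → HasCompactSupport g →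
    ∃ C : ℝ, 0 < C ∧ ∀ z : ℂ, |z.re| ≤ b → ‖z‖ ^ J * ‖lap g z‖ ≤ C := by
  induction J with
  | zero =>
    intro g hg hs
    have hc := hg.continuous
    obtain ⟨T, hT⟩ := hs.isBounded.subset_closedBall (0 : ℝ)
    have hT' : ∀ v, g v ≠ 0 → |v| ≤ T := by
      intro v hv
      have h1 := hT (subset_closure hv)
      simpa [Real.dist_eq] using h1
    have hgi : Integrable g := hc.integrable_of_hasCompactSupport hs
    refine ⟨(∫ v : ℝ, ‖g v‖ * Real.exp (b * |T|)) + 1, ?_, fun z hz => ?_⟩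
    · have : 0 ≤ ∫ v : ℝ, ‖g v‖ * Real.exp (b * |T|) := integral_nonneg fun v => by positivity
      linarith
    rw [pow_zero, one_mul]
    have h1 : ‖lap g z‖ ≤ ∫ v : ℝ, ‖g v‖ * Real.exp (b * |T|) := by
      refine norm_integral_le_of_norm_le (hgi.norm.mul_const _) ?_
      refine Eventually.of_forall fun v => ?_
      by_cases hv : g v = 0
      · simp [hv]
      · rw [norm_mul, Complex.norm_exp]
        have h2 : (z * (v : ℂ)).re ≤ b * |T| := by
          have h3 : (z * (v : ℂ)).re = z.re * v := by simp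
          rw [h3]
          refine (le_abs_self _).trans ?_
          rw [abs_mul]
          exact mul_le_mul hz ((hT' v hv).trans (le_abs_self T)) (abs_nonneg _)
            ((abs_nonneg _).trans hz)
        gcongr
    linarith
  | succ J ih =>
    intro g hg hs
    have hg1 : ContDiff ℝ ∞ (deriv g) := (contDiff_infty_iff_deriv.1 hg).2
    obtain ⟨C, hC, h⟩ := ih (deriv g) hg1 hs.deriv
    refine ⟨C, hC, fun z hz => ?_⟩
    have h1 := h z hz
    have h2 := lap_parts (hg.of_le (by exact_mod_cast le_top)) hs z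
    have h3 : ‖lap (deriv g) z‖ = ‖z‖ * ‖lap g z‖ := by
      rw [← norm_mul, h2, norm_neg]
    rw [h3] at h1
    calc ‖z‖ ^ (J + 1) * ‖lap g z‖ = ‖z‖ ^ J * (‖z‖ * ‖lap g z‖) := by ring
      _ ≤ C := h1

theorem lap_decay {g : ℝ → ℂ} (hg : ContDiff ℝ ∞ g) (hs : HasCompactSupport g) (K b : ℝ) :
    ∃ M : ℝ, 0 < M ∧ ∀ z : ℂ, |z.re| ≤ b →
    (1 + ‖z‖) ^ K * ‖lap g z‖ ≤ M / (1 + z.im ^ 2) := by
  obtain ⟨J, hJ⟩ := exists_nat_ge (K + 2)
  obtain ⟨C0, hC0, h0⟩ := lap_decay0 b 0 g hg hs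
  obtain ⟨CJ, hCJ, h1⟩ := lap_decay0 b J g hg hs
  refine ⟨2 ^ J * (C0 + CJ), by positivity, fun w hw => ?_⟩
  have h2 := h0 w hw
  have h3 := h1 w hw
  rw [pow_zero, one_mul] at h2
  rw [le_div_iff₀ (by positivity)]
  have hn : 0 ≤ ‖w‖ := norm_nonneg w
  have e1 : 1 + w.im ^ 2 ≤ (1 + ‖w‖) ^ (2 : ℝ) := by
    rw [Real.rpow_two]
    have : w.im ^ 2 ≤ ‖w‖ ^ 2 := by
      rw [← sq_abs]
      exact pow_le_pow_left₀ (abs_nonneg _) (Complex.abs_im_le_norm w) 2
    nlinarith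
  have e2 : (1 + ‖w‖) ^ K * (1 + w.im ^ 2) ≤ (1 + ‖w‖) ^ J := by
    calc (1 + ‖w‖) ^ K * (1 + w.im ^ 2) ≤ (1 + ‖w‖) ^ K * (1 + ‖w‖) ^ (2 : ℝ) := by gcongr
      _ = (1 + ‖w‖) ^ (K + 2) := by rw [Real.rpow_add (by positivity)]
      _ ≤ (1 + ‖w‖) ^ (J : ℝ) := Real.rpow_le_rpow_of_exponent_le (by linarith) hJ
      _ = (1 + ‖w‖) ^ J := Real.rpow_natCast _ _
  have e3 : (1 + ‖w‖) ^ J ≤ 2 ^ J * (1 + ‖w‖ ^ J) := by
    rcases le_total ‖w‖ 1 with h | h
    · calc (1 + ‖w‖) ^ J ≤ 2 ^ J := pow_le_pow_left₀ (by positivity) (by linarith) J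
        _ ≤ 2 ^ J * (1 + ‖w‖ ^ J) := by
          have : (0 : ℝ) ≤ 2 ^ J * ‖w‖ ^ J := by positivity
          linarith
    · calc (1 + ‖w‖) ^ J ≤ (2 * ‖w‖) ^ J := pow_le_pow_left₀ (by positivity) (by linarith) J
        _ = 2 ^ J * ‖w‖ ^ J := mul_pow _ _ _
        _ ≤ 2 ^ J * (1 + ‖w‖ ^ J) := by
          have : (0 : ℝ) ≤ 2 ^ J := by positivity
          linarith
  calc (1 + ‖w‖) ^ K * ‖lap g w‖ * (1 + w.im ^ 2) = ((1 + ‖w‖) ^ K * (1 + w.im ^ 2)) * ‖lap g w‖ := by ring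
    _ ≤ (2 ^ J * (1 + ‖w‖ ^ J)) * ‖lap g w‖ :=
        mul_le_mul_of_nonneg_right (e2.trans e3) (norm_nonneg _)
    _ = 2 ^ J * (‖lap g w‖ + ‖w‖ ^ J * ‖lap g w‖) := by ring
    _ ≤ 2 ^ J * (C0 + CJ) := by
        gcongr

/-- relation with the inverse Fourier transform -/
theorem fourierInv_lap (g : ℝ → ℂ) (ξ : ℝ) : 𝓕⁻ g ξ = lap g (2 * Real.pi * ξ * Complex.I) := by
  rw [Real.fourierInv_eq']
  unfold lap
  congr 1
  funext v
  rw [smul_eq_mul, mul_comm]
  congr 2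
  simp
  ring

/-- Parseval for a test function and an integrable function -/
theorem parseval {g : ℝ → ℂ} (hg : ContDiff ℝ ∞ g) (hs : HasCompactSupport g) {U : ℝ → ℂ}
    (hU : Integrable U) (σ : ℝ) :
    ∫ v : ℝ, g v * Complex.exp (σ * v) * U v =
      ∫ ξ : ℝ, lap g (σ + 2 * Real.pi * ξ * Complex.I) * 𝓕 U ξ := by
  have hg2 : ContDiff ℝ ∞ (fun v : ℝ => g v * Complex.exp (σ * v)) := by
    have h1 : ContDiff ℝ ∞ (fun v : ℝ => Complex.exp (σ * v)) := by
      have h2 : ContDiff ℝ ∞ (fun v : ℝ => (σ : ℂ) * (v : ℂ)) :=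
        contDiff_const.mul Complex.ofRealCLM.contDiff
      exact h2.cexp
    exact hg.mul h1
  have hs2 : HasCompactSupport (fun v : ℝ => g v * Complex.exp (σ * v)) := hs.mul_right
  obtain ⟨P, hP⟩ : ∃ P : 𝓢(ℝ, ℂ), P = hs2.toSchwartzMap hg2 := ⟨_, rfl⟩
  have hPg : ∀ x, P x = g x * Complex.exp (σ * x) := fun x => by rw [hP]; rfl
  have h1 := fourier_flip (f := ((𝓕⁻ P : 𝓢(ℝ, ℂ)) : ℝ → ℂ)) (g := U) (𝓕⁻ P).integrable hU
  have h2 : 𝓕 ((𝓕⁻ P : 𝓢(ℝ, ℂ)) : ℝ → ℂ) = P := by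
    have h3 : 𝓕 (𝓕⁻ P) = P := fourier_fourierInv_eq P
    have h4 : ((𝓕 (𝓕⁻ P) : 𝓢(ℝ, ℂ)) : ℝ → ℂ) = 𝓕 ((𝓕⁻ P : 𝓢(ℝ, ℂ)) : ℝ → ℂ) := rfl
    rw [← h4, h3]
  rw [h2] at h1
  have h5 : ∀ ξ : ℝ, (𝓕⁻ P : 𝓢(ℝ, ℂ)) ξ = lap g (σ + 2 * Real.pi * ξ * Complex.I) := by
    intro ξ
    have h6 : (𝓕⁻ P : 𝓢(ℝ, ℂ)) ξ = 𝓕⁻ (P : ℝ → ℂ) ξ := by rw [SchwartzMap.fourierInv_coe]
    rw [h6, fourierInv_lap]
    unfold lap
    congr 1
    funext v
    rw [hPg, mul_assoc, ← Complex.exp_add]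
    congr 2
    ring
  calc ∫ v : ℝ, g v * Complex.exp (σ * v) * U v = ∫ x, U x * P x := by
        congr 1
        funext v
        rw [hPg]
        ring
    _ = ∫ x, 𝓕 U x * (𝓕⁻ P : 𝓢(ℝ, ℂ)) x := h1.symm
    _ = _ := by
        congr 1
        funext ξ
        rw [h5, mul_comm]

end Pool.Agent.Q151.GB
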