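import Pool.Agent.Q298.GB.Base
import Pool.Agent.Q237.BD.Vert
import Pool.Agent.Q151.GB.Ltwo

/-!
# Project GB (helper286), job PL: the elementary distance is at most the distance on the line
-/

set_option autoImplicit false

open Complex MeasureTheory Filter Topology Set FourierTransform
open scoped ContDiff
open Pool.Agent.Q286.BD (cl)
open Pool.Agent.Q286.GB
open Pool.Agent.Q298.GB (fa fl cc_eq CC_meas)

namespace Pool.Agent.Q151.GB

/-- the Dirichlet polynomial -/
noncomputable def AN (N : ℕ) (a : ℕ → ℂ) (s : ℂ) : ℂ := ∑ n ∈ Finset.Icc 1 N, a n * (n : ℂ) ^ (-s)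

theorem cc_hs (O : LFn) (N : ℕ) (a : ℕ → ℂ) (s : ℂ) (hs : 2 ≤ s.re) :
    HasSum (fun k : ℕ => cc O N a k * (k : ℂ) ^ (-s)) (AN N a s * O.L s) := by
  have hterm : ∀ (f : ℕ → ℂ), f 0 = 0 → ∀ n : ℕ, LSeries.term f s n = f n * (n : ℂ) ^ (-s) := by
    intro f hf n
    rw [LSeries.term_def]
    split_ifs with h
    · rw [h, hf, zero_mul]
    · rw [Complex.cpow_neg, div_eq_mul_inv]
  have h1 : LSeriesHasSum (fun n => fl O n) s (O.L s) := by
    unfold LSeriesHasSum
    have h := O.ser s hs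
    refine h.congr_fun ?_
    intro n
    rw [hterm _ (by exact O.lam_zero)]
    rfl
  have h2 : LSeriesHasSum (fun n => fa N a n) s (AN N a s) := by
    unfold LSeriesHasSum
    have e : AN N a s = ∑ n ∈ Finset.Icc 1 N, LSeries.term (fun n => fa N a n) s n := by
      unfold AN
      refine Finset.sum_congr rfl fun n hn => ?_
      rw [Finset.mem_Icc] at hn
      rw [hterm _ (by simp)]
      congr 1
      change a n = (if n = 0 then 0 else if n ≤ N then a n else 0)
      rw [if_neg (by omega), if_pos hn.2]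
    rw [e]
    apply hasSum_sum_of_ne_finset_zero
    intro n hn
    rw [hterm _ (by simp)]
    have h3 : fa N a n = 0 := by
      change (if n = 0 then 0 else if n ≤ N then a n else 0) = 0
      rw [Finset.mem_Icc] at hn
      by_cases h0 : n = 0
      · rw [if_pos h0]
      · rw [if_neg h0, if_neg (by omega)]
    rw [h3, zero_mul]
  have h3 := ArithmeticFunction.LSeriesHasSum_mul h2 h1
  unfold LSeriesHasSum at h3
  refine h3.congr_fun fun k => ?_
  rw [hterm _ (by simp), cc_eq]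

theorem cc_zero (O : LFn) (N : ℕ) (a : ℕ → ℂ) : cc O N a 0 = 0 := by
  unfold cc
  simp

theorem cc_norm (O : LFn) (N : ℕ) (a : ℕ → ℂ) :
    Summable (fun k : ℕ => ‖cc O N a k‖ * (k : ℝ) ^ (-2 : ℝ)) := by
  have h := (cc_hs O N a 2 (by simp)).summable.norm
  refine h.congr fun k => ?_
  rcases eq_or_ne k 0 with hk | hk
  · rw [hk, cc_zero]
    simp
  · have hk0 : (0 : ℝ) < k := by exact_mod_cast Nat.pos_of_ne_zero hk
    rw [norm_mul]
    congr 1
    have e1 : ((k : ℕ) : ℂ) = (((k : ℝ)) : ℂ) := by norm_cast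
    rw [e1, norm_cpow_eq_rpow_re_of_pos hk0]
    simp

/-- the partial sums of `cc` at `exp v` -/
noncomputable def DD (O : LFn) (N : ℕ) (a : ℕ → ℂ) (v : ℝ) : ℂ :=
  ∑ k ∈ Finset.Icc 1 ⌊Real.exp v⌋₊, cc O N a k

theorem CC_DD (O : LFn) (N : ℕ) (a : ℕ → ℂ) (v : ℝ) : CC O N a (Real.exp v) = 1 - DD O N a v := rfl

theorem DD_neg (O : LFn) (N : ℕ) (a : ℕ → ℂ) {v : ℝ} (hv : v < 0) : DD O N a v = 0 := by
  unfold DD
  have : ⌊Real.exp v⌋₊ = 0 := by
    rw [Nat.floor_eq_zero]
    exact Real.exp_lt_one_iff.2 hv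
  rw [this]
  simp

theorem DD_meas (O : LFn) (N : ℕ) (a : ℕ → ℂ) : Measurable (DD O N a) := by
  have h : Measurable (fun k : ℕ => ∑ j ∈ Finset.Icc 1 k, cc O N a j) := measurable_of_countable _
  exact h.comp (Nat.measurable_floor.comp Real.measurable_exp)

theorem DD_le (O : LFn) (N : ℕ) (a : ℕ → ℂ) (v : ℝ) :
    ‖DD O N a v‖ ≤ (∑' k : ℕ, ‖cc O N a k‖ * (k : ℝ) ^ (-2 : ℝ)) * Real.exp (2 * v) := by
  unfold DD
  refine (norm_sum_le _ _).trans ?_
  have h1 : ∀ k ∈ Finset.Icc 1 ⌊Real.exp v⌋₊, ‖cc O N a k‖ ≤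
      ‖cc O N a k‖ * (k : ℝ) ^ (-2 : ℝ) * Real.exp (2 * v) := by
    intro k hk
    rw [Finset.mem_Icc] at hk
    have hk0 : (0 : ℝ) < k := by exact_mod_cast (by omega : 0 < k)
    have h2 : (k : ℝ) ≤ Real.exp v := (Nat.le_floor_iff (Real.exp_pos v).le).1 hk.2
    have h3 : 1 ≤ (k : ℝ) ^ (-2 : ℝ) * Real.exp (2 * v) := by
      rw [Real.rpow_neg hk0.le, Real.rpow_two, inv_mul_eq_div, one_le_div (by positivity)]
      have : Real.exp (2 * v) = Real.exp v ^ 2 := by
        rw [← Real.exp_nat_mul]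
        norm_num
      rw [this]
      exact pow_le_pow_left₀ hk0.le h2 2
    calc ‖cc O N a k‖ = ‖cc O N a k‖ * 1 := (mul_one _).symm
      _ ≤ ‖cc O N a k‖ * ((k : ℝ) ^ (-2 : ℝ) * Real.exp (2 * v)) := by gcongr
      _ = _ := by ring
  refine (Finset.sum_le_sum h1).trans ?_
  rw [← Finset.sum_mul]
  refine mul_le_mul_of_nonneg_right ?_ (Real.exp_pos _).le
  exact (cc_norm O N a).sum_le_tsum _ fun k _ => by positivity

theorem exp_int {s : ℂ} (hs : 0 < s.re) (c : ℝ) :
    IntegrableOn (fun v : ℝ => cexp (-s * v)) (Ici c) ∧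
    ∫ v in Ici c, cexp (-s * v) = cexp (-s * c) / s := by
  have h1 := integrableOn_exp_mul_complex_Ioi (a := -s) (by simpa using hs) c
  have h2 := integral_exp_mul_complex_Ioi (a := -s) (by simpa using hs) c
  refine ⟨(integrableOn_Ici_iff_integrableOn_Ioi (by simp)).2 h1, ?_⟩
  rw [integral_Ici_eq_integral_Ioi, h2]
  rw [neg_div_neg_eq]

/-- the Laplace transform of the partial sums -/
theorem DD_lap (O : LFn) (N : ℕ) (a : ℕ → ℂ) (s : ℂ) (hs : 2 ≤ s.re) :
    ∫ v : ℝ, DD O N a v * cexp (-s * v) = AN N a s * O.L s / s := by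
  have hs0 : 0 < s.re := by linarith
  obtain ⟨F, hF⟩ : ∃ F : ℕ → ℝ → ℂ, F = fun k v => cc O N a k *
    (Ici (Real.log k)).indicator (fun v : ℝ => cexp (-s * v)) v := ⟨_, rfl⟩
  have hind : ∀ k : ℕ, Integrable ((Ici (Real.log k)).indicator (fun v : ℝ => cexp (-s * v))) :=
    fun k => (exp_int hs0 (Real.log k)).1.integrable_indicator measurableSet_Ici
  have hFi : ∀ k, Integrable (F k) := by
    intro k
    rw [hF]
    exact (hind k).const_mul _
  have hval : ∀ k, ∫ v, F k v = cc O N a k * (k : ℂ) ^ (-s) * s⁻¹ := by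
    intro k
    rcases eq_or_ne k 0 with hk | hk
    · rw [hF, hk]
      simp [cc_zero]
    · have hk0 : (0 : ℝ) < k := by exact_mod_cast Nat.pos_of_ne_zero hk
      rw [hF]
      beta_reduce
      rw [integral_const_mul, integral_indicator measurableSet_Ici, (exp_int hs0 (Real.log k)).2]
      have e1 : ((k : ℕ) : ℂ) = (((k : ℝ)) : ℂ) := by norm_cast
      have hk1 : ((k : ℝ) : ℂ) ≠ 0 := by exact_mod_cast hk0.ne'
      rw [e1, cpow_def_of_ne_zero hk1, ← Complex.ofReal_log hk0.le, mul_comm (-s)]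
      ring
  have hnorm : ∀ k, ∫ v, ‖F k v‖ ≤ ‖cc O N a k‖ * (k : ℝ) ^ (-2 : ℝ) * s.re⁻¹ := by
    intro k
    rcases eq_or_ne k 0 with hk | hk
    · rw [hF, hk]
      simp [cc_zero]
    · have hk0 : (0 : ℝ) < k := by exact_mod_cast Nat.pos_of_ne_zero hk
      have hk1 : (1 : ℝ) ≤ k := by exact_mod_cast Nat.one_le_iff_ne_zero.2 hk
      have e2 : ∀ v : ℝ, ‖F k v‖ = ‖cc O N a k‖ *
          (Ici (Real.log k)).indicator (fun v : ℝ => Real.exp (-s.re * v)) v := by
        intro v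
        rw [hF]
        beta_reduce
        rw [norm_mul, norm_indicator_eq_indicator_norm]
        congr 2
        funext w
        rw [Complex.norm_exp]
        congr 1
        simp
      rw [integral_congr_ae (Eventually.of_forall e2), integral_const_mul,
        integral_indicator measurableSet_Ici, integral_Ici_eq_integral_Ioi,
        integral_exp_mul_Ioi (by linarith), neg_div_neg_eq]
      have e3 : Real.exp (-s.re * Real.log k) = (k : ℝ) ^ (-s.re) := by
        rw [Real.rpow_def_of_pos hk0, mul_comm]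
      rw [e3, mul_assoc]
      refine mul_le_mul_of_nonneg_left ?_ (norm_nonneg _)
      rw [div_eq_mul_inv]
      refine mul_le_mul_of_nonneg_right ?_ (by positivity)
      exact Real.rpow_le_rpow_of_exponent_le hk1 (by linarith)
  have hsum : Summable fun k => ∫ v, ‖F k v‖ := by
    refine Summable.of_nonneg_of_le (fun k => integral_nonneg fun v => norm_nonneg _) hnorm ?_
    exact (cc_norm O N a).mul_right _
  have h1 := hasSum_integral_of_summable_integral_norm hFi hsum
  have h2 : ∀ v : ℝ, ∑' k, F k v = DD O N a v * cexp (-s * v) := by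
    intro v
    have h3 : HasSum (fun k => F k v) (∑ k ∈ Finset.Icc 1 ⌊Real.exp v⌋₊, F k v) := by
      refine hasSum_sum_of_ne_finset_zero fun k hk => ?_
      rw [Finset.mem_Icc, not_and_or, not_le, not_le] at hk
      rcases hk with hk | hk
      · have hk0 : k = 0 := by omega
        rw [hF, hk0]
        simp [cc_zero]
      · have h5 : Real.exp v < k := (Nat.floor_lt (Real.exp_pos v).le).1 hk
        have h6 : v < Real.log k := by
          rw [Real.lt_log_iff_exp_lt (lt_trans (Real.exp_pos v) h5)]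
          exact h5
        rw [hF]
        beta_reduce
        rw [indicator_of_notMem (by simpa using h6), mul_zero]
    rw [h3.tsum_eq]
    unfold DD
    rw [Finset.sum_mul]
    refine Finset.sum_congr rfl fun k hk => ?_
    rw [Finset.mem_Icc] at hk
    have hk0 : (0 : ℝ) < k := by exact_mod_cast (by omega : 0 < k)
    have h5 : (k : ℝ) ≤ Real.exp v := (Nat.le_floor_iff (Real.exp_pos v).le).1 hk.2
    have h6 : Real.log k ≤ v := (Real.log_le_iff_le_exp hk0).2 h5
    rw [hF]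
    beta_reduce
    rw [indicator_of_mem (by simpa using h6)]
  rw [integral_congr_ae (Eventually.of_forall h2)] at h1
  have h4 := (cc_hs O N a s hs).mul_right s⁻¹
  rw [funext hval] at h1
  rw [h1.unique h4, div_eq_mul_inv]

/-- the function `(1 - L A)/s` -/
noncomputable def FF (O : LFn) (N : ℕ) (a : ℕ → ℂ) (s : ℂ) : ℂ := (1 - AN N a s * O.L s) / s

/-- the function of the logarithmic variable -/
noncomputable def uu (O : LFn) (N : ℕ) (a : ℕ → ℂ) (v : ℝ) : ℂ :=
  (Ici (0 : ℝ)).indicator (fun v => CC O N a (Real.exp v) * cexp (-(1 / 2) * v)) v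

noncomputable def UU (O : LFn) (N : ℕ) (a : ℕ → ℂ) (v : ℝ) : ℂ :=
  (Ici (0 : ℝ)).indicator (fun v => CC O N a (Real.exp v) * cexp (-(5 / 2) * v)) v

theorem DD_int (O : LFn) (N : ℕ) (a : ℕ → ℂ) (s : ℂ) (hs : 2 < s.re) :
    Integrable (fun v : ℝ => DD O N a v * cexp (-s * v)) := by
  obtain ⟨S, hS⟩ : ∃ S : ℝ, S = ∑' k : ℕ, ‖cc O N a k‖ * (k : ℝ) ^ (-2 : ℝ) := ⟨_, rfl⟩
  have hS0 : 0 ≤ S := hS ▸ tsum_nonneg fun k => by positivity
  have h1 : IntegrableOn (fun v : ℝ => S * Real.exp (-(s.re - 2) * v)) (Ici 0) :=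
    ((integrableOn_Ici_iff_integrableOn_Ioi (by simp)).2
      (integrableOn_exp_mul_Ioi (by linarith) 0)).const_mul S
  have h2 := h1.integrable_indicator measurableSet_Ici
  refine h2.mono' ?_ ?_
  · have hm := DD_meas O N a
    have hc : Measurable (fun v : ℝ => cexp (-s * v)) := by fun_prop
    exact (hm.mul hc).aestronglyMeasurable
  · refine Eventually.of_forall fun v => ?_
    rcases lt_or_ge v 0 with hv | hv
    · rw [DD_neg O N a hv]
      simp only [zero_mul, norm_zero]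
      exact indicator_nonneg (fun v _ => by positivity) v
    · rw [indicator_of_mem (by simpa using hv), norm_mul, Complex.norm_exp]
      have h3 := DD_le O N a v
      rw [← hS] at h3
      have e1 : (-s * (v : ℂ)).re = -s.re * v := by simp
      rw [e1]
      calc ‖DD O N a v‖ * Real.exp (-s.re * v) ≤ S * Real.exp (2 * v) * Real.exp (-s.re * v) := by
            gcongr
        _ = S * Real.exp (-(s.re - 2) * v) := by
            rw [mul_assoc, ← Real.exp_add]
            congr 2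
            ring

theorem CC_lap (O : LFn) (N : ℕ) (a : ℕ → ℂ) (s : ℂ) (hs : 2 < s.re) :
    Integrable ((Ici (0 : ℝ)).indicator (fun v : ℝ => CC O N a (Real.exp v) * cexp (-s * v))) ∧
    ∫ v : ℝ, (Ici (0 : ℝ)).indicator (fun v => CC O N a (Real.exp v) * cexp (-s * v)) v =
      FF O N a s := by
  have hs0 : 0 < s.re := by linarith
  have e0 : (Ici (0 : ℝ)).indicator (fun v : ℝ => CC O N a (Real.exp v) * cexp (-s * v)) =
      fun v => (Ici (0 : ℝ)).indicator (fun v : ℝ => cexp (-s * v)) v -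
        DD O N a v * cexp (-s * v) := by
    funext v
    rcases lt_or_ge v 0 with hv | hv
    · rw [DD_neg O N a hv, indicator_of_notMem (by simpa using hv),
        indicator_of_notMem (by simpa using hv)]
      simp
    · rw [indicator_of_mem (by simpa using hv), indicator_of_mem (by simpa using hv), CC_DD]
      ring
  have i1 := (exp_int hs0 0).1.integrable_indicator measurableSet_Ici
  have i2 := DD_int O N a s hs
  rw [e0]
  refine ⟨i1.sub i2, ?_⟩
  rw [integral_sub i1 i2, integral_indicator measurableSet_Ici, (exp_int hs0 0).2,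
    DD_lap O N a s hs.le]
  unfold FF
  rw [sub_div]
  simp

theorem UU_fourier (O : LFn) (N : ℕ) (a : ℕ → ℂ) (ξ : ℝ) :
    𝓕 (UU O N a) ξ = FF O N a (1 / 2 + (2 + 2 * Real.pi * ξ * I)) := by
  have h1 := (CC_lap O N a (1 / 2 + (2 + 2 * Real.pi * ξ * I)) (by simp)).2
  rw [← h1, Real.fourier_eq']
  congr 1
  funext v
  unfold UU
  rw [smul_eq_mul]
  rcases lt_or_ge v 0 with hv | hv
  · rw [indicator_of_notMem (by simpa using hv), indicator_of_notMem (by simpa using hv), mul_zero]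
  · rw [indicator_of_mem (by simpa using hv), indicator_of_mem (by simpa using hv), mul_left_comm,
      ← Complex.exp_add]
    congr 2
    simp
    ring

theorem FF_bd (O : LFn) (N : ℕ) (a : ℕ → ℂ) : ∃ C K : ℝ, 0 < C ∧ 0 ≤ K ∧ ∀ z : ℂ, 0 ≤ z.re →
    ‖FF O N a (1 / 2 + z)‖ ≤ C * (1 + ‖z‖) ^ K := by
  obtain ⟨C, K, hC, hK, h⟩ := O.grow 0
  obtain ⟨A, hA⟩ : ∃ A : ℝ, A = ∑ n ∈ Finset.Icc 1 N, ‖a n‖ := ⟨_, rfl⟩
  have hA0 : 0 ≤ A := hA ▸ Finset.sum_nonneg fun _ _ => norm_nonneg _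
  refine ⟨2 * (1 + A * (C * 2 ^ K)), K, by positivity, hK, fun z hz => ?_⟩
  have hre : (1 / 2 + z).re = 1 / 2 + z.re := by simp
  have h1 := h (1 / 2 + z) (by rw [hre]; linarith)
  have hz0 := norm_nonneg z
  have h2 : ‖1 / 2 + z‖ ≤ 1 / 2 + ‖z‖ := by
    refine (norm_add_le _ _).trans ?_
    simp
  have h3 : (1 + ‖1 / 2 + z‖) ^ K ≤ 2 ^ K * (1 + ‖z‖) ^ K := by
    rw [← Real.mul_rpow (by norm_num) (by positivity)]
    exact Real.rpow_le_rpow (by positivity) (by linarith) hK
  have h4 : ‖AN N a (1 / 2 + z)‖ ≤ A := by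
    unfold AN
    rw [hA]
    refine norm_sum_le_of_le _ fun n hn => ?_
    rw [Finset.mem_Icc] at hn
    have hn0 : (0 : ℝ) < n := by exact_mod_cast (by omega : 0 < n)
    have hn1 : (1 : ℝ) ≤ n := by exact_mod_cast hn.1
    have e1 : ((n : ℕ) : ℂ) = (((n : ℝ)) : ℂ) := by norm_cast
    rw [norm_mul, e1, norm_cpow_eq_rpow_re_of_pos hn0]
    refine mul_le_of_le_one_right (norm_nonneg _) ?_
    refine Real.rpow_le_one_of_one_le_of_nonpos hn1 ?_
    rw [neg_re, hre]
    linarith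
  have h5 : 1 / 2 ≤ ‖1 / 2 + z‖ := by
    have := Complex.re_le_norm (1 / 2 + z)
    rw [hre] at this
    linarith
  have hp : 1 ≤ (1 + ‖z‖) ^ K := Real.one_le_rpow (by linarith) hK
  unfold FF
  rw [norm_div, div_le_iff₀ (by linarith)]
  have h6 : ‖1 - AN N a (1 / 2 + z) * O.L (1 / 2 + z)‖ ≤ (1 + A * (C * 2 ^ K)) * (1 + ‖z‖) ^ K := by
    calc ‖1 - AN N a (1 / 2 + z) * O.L (1 / 2 + z)‖ ≤ 1 + ‖AN N a (1 / 2 + z)‖ * ‖O.L (1 / 2 + z)‖ := by
          refine (norm_sub_le _ _).trans ?_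
          rw [norm_one, norm_mul]
      _ ≤ 1 + A * (C * (2 ^ K * (1 + ‖z‖) ^ K)) := by
          gcongr
          exact h1.trans (by gcongr)
      _ ≤ 1 * (1 + ‖z‖) ^ K + A * (C * (2 ^ K * (1 + ‖z‖) ^ K)) := by linarith
      _ = _ := by ring
  have h7 : 0 ≤ (1 + A * (C * 2 ^ K)) * (1 + ‖z‖) ^ K := by positivity
  nlinarith

theorem FF_diff (O : LFn) (N : ℕ) (a : ℕ → ℂ) {z : ℂ} (hz : -(1 / 2) < z.re) :
    DifferentiableAt ℂ (fun z => FF O N a (1 / 2 + z)) z := by
  have h0 : (1 / 2 + z) ≠ 0 := by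
    intro h
    have := congrArg Complex.re h
    simp at this
    linarith
  have hA : Differentiable ℂ (AN N a) := by
    unfold AN
    refine Differentiable.fun_sum fun n hn => ?_
    rw [Finset.mem_Icc] at hn
    have hn0 : ((n : ℕ) : ℂ) ≠ 0 := by exact_mod_cast (by omega : n ≠ 0)
    intro s
    exact (differentiableAt_id.neg.const_cpow (Or.inl hn0)).const_mul _
  have h1 : Differentiable ℂ (fun z : ℂ => 1 / 2 + z) := by fun_prop
  exact (((differentiable_const 1).sub ((hA.comp h1).mul (O.entire.comp h1))) z).div (h1 z) h0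

theorem main_id (O : LFn) (N : ℕ) (a : ℕ → ℂ) {g : ℝ → ℂ} (hg : ContDiff ℝ ∞ g)
    (hs : HasCompactSupport g) :
    ∫ v : ℝ, g v * uu O N a v = ∫ ξ : ℝ, 𝓕⁻ g ξ * FF O N a (1 / 2 + 2 * Real.pi * ξ * I) := by
  have hU : Integrable (UU O N a) := by
    have := (CC_lap O N a (5 / 2) (by norm_num)).1
    exact this
  have h1 := parseval hg hs hU 2
  have e1 : ∀ v : ℝ, g v * cexp ((2 : ℝ) * v) * UU O N a v = g v * uu O N a v := by
    intro v
    unfold UU uu
    rcases lt_or_ge v 0 with hv | hv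
    · rw [indicator_of_notMem (by simpa using hv), indicator_of_notMem (by simpa using hv), mul_zero,
        mul_zero]
    · rw [indicator_of_mem (by simpa using hv), indicator_of_mem (by simpa using hv)]
      have e2 : cexp ((2 : ℝ) * v) * cexp (-(5 / 2) * v) = cexp (-(1 / 2) * v) := by
        rw [← Complex.exp_add]
        congr 1
        push_cast
        ring
      rw [← e2]
      ring
  rw [integral_congr_ae (Eventually.of_forall e1)] at h1
  rw [h1]
  obtain ⟨E, hE⟩ : ∃ E : ℂ → ℂ, E = fun z => lap g z * FF O N a (1 / 2 + z) := ⟨_, rfl⟩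
  have hpi := Real.pi_pos
  have hsc : ∀ σ : ℝ, ∫ ξ : ℝ, E (σ + ((2 * Real.pi * ξ : ℝ) : ℂ) * I) =
      |(2 * Real.pi)⁻¹| • ∫ K : ℝ, E (σ + K * I) := by
    intro σ
    exact Measure.integral_comp_mul_left (fun K : ℝ => E (σ + K * I)) (2 * Real.pi)
  have e3 : ∀ ξ : ℝ, lap g ((2 : ℝ) + 2 * Real.pi * ξ * I) * 𝓕 (UU O N a) ξ =
      E ((2 : ℝ) + ((2 * Real.pi * ξ : ℝ) : ℂ) * I) := by
    intro ξ
    rw [UU_fourier, hE]
    push_cast
    rfl
  have e4 : ∀ ξ : ℝ, 𝓕⁻ g ξ * FF O N a (1 / 2 + 2 * Real.pi * ξ * I) =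
      E ((0 : ℝ) + ((2 * Real.pi * ξ : ℝ) : ℂ) * I) := by
    intro ξ
    rw [fourierInv_lap, hE]
    push_cast
    rw [zero_add]
  rw [integral_congr_ae (Eventually.of_forall e3), integral_congr_ae (Eventually.of_forall e4),
    hsc, hsc]
  congr 1
  obtain ⟨C, K, hC, hK, hF⟩ := FF_bd O N a
  obtain ⟨M, hM, hL⟩ := lap_decay hg hs K 2
  refine (Pool.Agent.Q237.BD.vshift (F := E) (a := 0) (b := 2) (M := C * M) (by norm_num) ∅
    countable_empty ?_ ?_ ?_).symm
  · intro z hz
    rw [hE]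
    exact ((lap_diff hg.continuous hs z).mul
      (FF_diff O N a (by linarith [hz.1]))).continuousAt.continuousWithinAt
  · intro z h1 h2 _
    rw [hE]
    exact (lap_diff hg.continuous hs z).mul (FF_diff O N a (by linarith))
  · intro z h1 h2
    rw [hE]
    beta_reduce
    rw [norm_mul]
    calc ‖lap g z‖ * ‖FF O N a (1 / 2 + z)‖ ≤ ‖lap g z‖ * (C * (1 + ‖z‖) ^ K) := by
          gcongr
          exact hF z h1
      _ = C * ((1 + ‖z‖) ^ K * ‖lap g z‖) := by ring
      _ ≤ C * (M / (1 + z.im ^ 2)) := by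
          gcongr
          exact hL z (by rw [abs_of_nonneg h1]; exact h2)
      _ = C * M / (1 + z.im ^ 2) := by ring

theorem H_sq (O : LFn) (N : ℕ) (a : ℕ → ℂ) (ξ : ℝ) :
    ‖FF O N a (1 / 2 + 2 * Real.pi * ξ * I)‖ ^ 2 = lin O N a (2 * Real.pi * ξ) := by
  have e1 : cl (2 * Real.pi * ξ) = 1 / 2 + 2 * Real.pi * ξ * I := by
    unfold Pool.Agent.Q286.BD.cl
    push_cast
    ring
  unfold lin FF AN
  rw [e1, norm_div, div_pow, mul_comm]
  congr 1
  rw [← Complex.normSq_eq_norm_sq, Complex.normSq_apply]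
  simp
  ring

theorem loc_int (O : LFn) (N : ℕ) (a : ℕ → ℂ) : LocallyIntegrable (uu O N a) := by
  have hU : Integrable (UU O N a) := by
    have := (CC_lap O N a (5 / 2) (by norm_num)).1
    exact this
  rw [locallyIntegrable_iff]
  intro K hK
  have h1 : ContinuousOn (fun v : ℝ => cexp (2 * v)) K := by fun_prop
  have h2 : IntegrableOn (fun v : ℝ => cexp (2 * v) * UU O N a v) K :=
    hU.integrableOn.continuousOn_mul h1 hK
  refine h2.congr_fun ?_ hK.measurableSet
  intro v _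
  beta_reduce
  unfold UU uu
  rcases lt_or_ge v 0 with hv | hv
  · rw [indicator_of_notMem (by simpa using hv), indicator_of_notMem (by simpa using hv), mul_zero]
  · rw [indicator_of_mem (by simpa using hv), indicator_of_mem (by simpa using hv), mul_left_comm,
      ← Complex.exp_add]
    congr 2
    ring

/-- JOB GB-PL -/
theorem t_PL : S_PL := by
  intro O N a hlin
  have hpi := Real.pi_pos
  obtain ⟨H, hH⟩ : ∃ H : ℝ → ℂ, H = fun ξ : ℝ => FF O N a (1 / 2 + 2 * Real.pi * ξ * I) := ⟨_, rfl⟩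
  have hHc : Continuous H := by
    rw [hH, continuous_iff_continuousAt]
    intro ξ
    have h1 : ContinuousAt (fun z => FF O N a (1 / 2 + z)) (2 * Real.pi * ξ * I) :=
      (FF_diff O N a (by simp)).continuousAt
    have h2 : ContinuousAt (fun ξ : ℝ => (2 * Real.pi * ξ * I : ℂ)) ξ := by fun_prop
    exact ContinuousAt.comp (f := fun ξ : ℝ => (2 * Real.pi * ξ * I : ℂ)) h1 h2
  have hHi : Integrable (fun ξ => ‖H ξ‖ ^ 2) := by
    have h1 := hlin.comp_mul_left' (R := 2 * Real.pi) (by positivity)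
    refine h1.congr (Eventually.of_forall fun ξ => ?_)
    beta_reduce
    rw [hH]
    exact (H_sq O N a ξ).symm
  have hH2 : MemLp H 2 := (memLp_two_iff_integrable_sq_norm hHc.aestronglyMeasurable).2 hHi
  obtain ⟨h1, h2⟩ := l2_id hH2 (loc_int O N a) (fun g hg hs => by
    have hg₁ : HasCompactSupport (Complex.ofRealCLM ∘ g) := hs.comp_left rfl
    have hg₂ : ContDiff ℝ ∞ (Complex.ofRealCLM ∘ g) := by fun_prop
    have h3 := main_id O N a (g := fun x => ((g x : ℝ) : ℂ)) hg₂ hg₁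
    rw [h3, hH])
  have h3 : ∫ ξ, ‖H ξ‖ ^ 2 = 1 / (2 * Real.pi) * ∫ t, lin O N a t := by
    have e1 : ∀ ξ, ‖H ξ‖ ^ 2 = lin O N a (2 * Real.pi * ξ) := by
      intro ξ
      rw [hH]
      exact H_sq O N a ξ
    rw [integral_congr_ae (Eventually.of_forall e1), Measure.integral_comp_mul_left, smul_eq_mul,
      abs_of_pos (by positivity), one_div]
  have h4 : Integrable (fun v => ‖uu O N a v‖ ^ 2) :=
    (memLp_two_iff_integrable_sq_norm h1.1).1 h1
  have himg : Real.exp '' Ioi 0 = Ioi 1 := by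
    ext y
    constructor
    · rintro ⟨x, hx, rfl⟩
      exact Real.one_lt_exp_iff.2 hx
    · intro hy
      have hy1 : (1 : ℝ) < y := hy
      exact ⟨Real.log y, Real.log_pos hy1, Real.exp_log (by linarith)⟩
  have hsq : ∀ v ∈ Ioi (0 : ℝ), |Real.exp v| • (‖CC O N a (Real.exp v)‖ ^ 2 / Real.exp v ^ 2) =
      ‖uu O N a v‖ ^ 2 := by
    intro v hv
    have hv' : (0 : ℝ) < v := hv
    unfold uu
    rw [indicator_of_mem (by simpa using hv'.le), norm_mul, Complex.norm_exp, mul_pow,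
      abs_of_pos (Real.exp_pos v), smul_eq_mul]
    have e1 : Real.exp (-(1 / 2) * (v : ℂ)).re ^ 2 = (Real.exp v)⁻¹ := by
      rw [← Real.exp_neg, ← Real.exp_nat_mul]
      congr 1
      simp
    rw [e1]
    have := Real.exp_pos v
    field_simp
  have hder : ∀ x ∈ Ioi (0 : ℝ), HasDerivWithinAt Real.exp (Real.exp x) (Ioi 0) x :=
    fun x _ => (Real.hasDerivAt_exp x).hasDerivWithinAt
  have hinj : InjOn Real.exp (Ioi 0) := Real.exp_injective.injOn
  have h5 : IntegrableOn (fun v => |Real.exp v| • (‖CC O N a (Real.exp v)‖ ^ 2 / Real.exp v ^ 2))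
      (Ioi 0) := by
    refine (h4.integrableOn (s := Ioi 0)).congr_fun ?_ measurableSet_Ioi
    intro v hv
    exact (hsq v hv).symm
  have h6 := (integrableOn_image_iff_integrableOn_abs_deriv_smul measurableSet_Ioi hder hinj
    (fun y : ℝ => ‖CC O N a y‖ ^ 2 / y ^ 2)).2 h5
  have h7 := integral_image_eq_integral_abs_deriv_smul measurableSet_Ioi hder hinj
    (fun y : ℝ => ‖CC O N a y‖ ^ 2 / y ^ 2)
  rw [himg] at h6 h7
  refine ⟨h6, ?_⟩
  rw [h7, setIntegral_congr_fun measurableSet_Ioi hsq, ← h3, ← h2]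
  exact setIntegral_le_integral h4 (Eventually.of_forall fun _ => by positivity)

end Pool.Agent.Q151.GB
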