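import Mathlib

/-!
# Project GB (helper286): Mellin transforms of cutoff functions
-/

set_option autoImplicit false

namespace Pool.Agent.Q151.GB

open Complex MeasureTheory Filter Topology Set Asymptotics

/-- continuous, vanishing for `y ≥ 2`, and either `Re w > 0` or vanishing for `y ≤ 1` -/
def Good (f : ℝ → ℂ) (w : ℂ) : Prop :=
  (∀ y, 2 ≤ y → f y = 0) ∧ (0 < w.re ∨ ∀ y, y ≤ 1 → f y = 0)

theorem mconv {f : ℝ → ℂ} {w : ℂ} (hc : Continuous f) (hg : Good f w) : MellinConvergent f w := by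
  have h1 : LocallyIntegrableOn f (Ioi 0) :=
    (hc.locallyIntegrable).locallyIntegrableOn _
  have h2 : ∀ g : ℝ → ℝ, f =O[atTop] g := by
    intro g
    refine IsBigO.of_bound 0 ?_
    filter_upwards [eventually_ge_atTop 2] with y hy
    rw [hg.1 y hy]
    simp
  have h3 : 0 < w.re → f =O[𝓝[>] 0] (fun y : ℝ => y ^ (-(0 : ℝ))) := by
    intro _
    have h4 : f =O[𝓝 0] (fun _ : ℝ => (1 : ℝ)) := hc.continuousAt.norm.isBoundedUnder_le.isBigO_one ℝ
    have h5 := h4.mono (nhdsWithin_le_nhds (s := Ioi 0))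
    simpa using h5
  rcases hg.2 with hw | hw
  · exact mellinConvergent_of_isBigO_rpow h1 (h2 _) (lt_add_one w.re) (h3 hw) hw
  · refine mellinConvergent_of_isBigO_rpow h1 (h2 _) (lt_add_one w.re) (b := w.re - 1) ?_ (by linarith)
    refine IsBigO.of_bound 0 ?_
    have h6 : ∀ᶠ y : ℝ in 𝓝[>] 0, y < 1 := nhdsWithin_le_nhds (gt_mem_nhds one_pos)
    filter_upwards [h6] with y hy
    rw [hw y hy.le]
    simp

theorem mdiff {f : ℝ → ℂ} (hc : Continuous f) (h2 : ∀ y, 2 ≤ y → f y = 0)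
    (h1 : ∀ y, y ≤ 1 → f y = 0) : Differentiable ℂ (mellin f) := by
  intro w
  have h1' : LocallyIntegrableOn f (Ioi 0) :=
    (hc.locallyIntegrable).locallyIntegrableOn _
  refine mellin_differentiableAt_of_isBigO_rpow (a := w.re + 1) (b := w.re - 1) h1' ?_ (by linarith)
    ?_ (by linarith)
  · refine IsBigO.of_bound 0 ?_
    filter_upwards [eventually_ge_atTop 2] with y hy
    rw [h2 y hy]
    simp
  · refine IsBigO.of_bound 0 ?_
    have h6 : ∀ᶠ y : ℝ in 𝓝[>] 0, y < 1 := nhdsWithin_le_nhds (gt_mem_nhds one_pos)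
    filter_upwards [h6] with y hy
    rw [h1 y hy.le]
    simp

/-- the operator `- y d/dy` -/
noncomputable def th (f : ℝ → ℂ) (y : ℝ) : ℂ := -(y * deriv f y)

theorem mparts {f : ℝ → ℂ} {w : ℂ} (hf : ContDiff ℝ 1 f) (hg : Good f w) :
    w * mellin f w = mellin (th f) w := by
  have hc := hf.continuous
  have hc' : Continuous (deriv f) := hf.continuous_deriv le_rfl
  have hd2 : ∀ y, 2 < y → deriv f y = 0 := by
    intro y hy
    have h1 : f =ᶠ[𝓝 y] fun _ => (0 : ℂ) := by
      filter_upwards [lt_mem_nhds hy] with z hz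
      exact hg.1 z hz.le
    rw [h1.deriv_eq]
    simp
  have hth : Continuous (th f) := by
    unfold th
    fun_prop
  have hd2' : ∀ y, 2 ≤ y → deriv f y = 0 := by
    intro y hy
    rcases hy.lt_or_eq with h | h
    · exact hd2 y h
    · rw [← h]
      have h3 : Tendsto (deriv f) (𝓝[>] 2) (𝓝 (deriv f 2)) :=
        (hc'.tendsto 2).mono_left nhdsWithin_le_nhds
      have h4 : Tendsto (deriv f) (𝓝[>] 2) (𝓝 0) := by
        refine tendsto_const_nhds.congr' ?_
        filter_upwards [self_mem_nhdsWithin] with z hz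
        exact (hd2 z hz).symm
      exact tendsto_nhds_unique h3 h4
  have hth2 : ∀ y, 2 ≤ y → th f y = 0 := by
    intro y hy
    unfold th
    rw [hd2' y hy]
    simp
  have hg' : Good (th f) w := by
    refine ⟨hth2, ?_⟩
    rcases hg.2 with h | h
    · exact Or.inl h
    · right
      have h5 : ∀ y, y < 1 → deriv f y = 0 := by
        intro y hy
        have h1 : f =ᶠ[𝓝 y] fun _ => (0 : ℂ) := by
          filter_upwards [gt_mem_nhds hy] with z hz
          exact h z hz.le
        rw [h1.deriv_eq]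
        simp
      intro y hy
      unfold th
      rcases hy.lt_or_eq with h' | h'
      · rw [h5 y h']
        simp
      · rw [h']
        have h3 : Tendsto (deriv f) (𝓝[<] 1) (𝓝 (deriv f 1)) :=
          (hc'.tendsto 1).mono_left nhdsWithin_le_nhds
        have h4 : Tendsto (deriv f) (𝓝[<] 1) (𝓝 0) := by
          refine tendsto_const_nhds.congr' ?_
          filter_upwards [self_mem_nhdsWithin] with z hz
          exact (h5 z hz).symm
        rw [tendsto_nhds_unique h3 h4]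
        simp
  have i1 : IntegrableOn (fun y : ℝ => (y : ℂ) ^ (w - 1) • f y) (Ioi 0) := mconv hc hg
  have i2 : IntegrableOn (fun y : ℝ => (y : ℂ) ^ (w - 1) • th f y) (Ioi 0) := mconv hth hg'
  have key := integral_Ioi_deriv_mul_eq_sub (a := (0 : ℝ)) (u := fun y : ℝ => (y : ℂ) ^ w)
    (u' := fun y : ℝ => w * (y : ℂ) ^ (w - 1)) (v := f) (v' := deriv f) (a' := (0 : ℂ)) (b' := (0 : ℂ))
    ?_ ?_ ?_ ?_ ?_
  · have e1 : ∀ y ∈ Ioi (0 : ℝ), w * (y : ℂ) ^ (w - 1) * f y + (y : ℂ) ^ w * deriv f y =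
        w • ((y : ℂ) ^ (w - 1) • f y) - (y : ℂ) ^ (w - 1) • th f y := by
      intro y hy
      have hy0 : (y : ℂ) ≠ 0 := by
        have : (0 : ℝ) < y := hy
        exact_mod_cast this.ne'
      have e2 : (y : ℂ) ^ w = (y : ℂ) ^ (w - 1) * y := by
        rw [cpow_sub _ _ hy0, cpow_one]
        field_simp
      unfold th
      rw [e2]
      simp only [smul_eq_mul]
      ring
    have i3 : Integrable (fun y : ℝ => w • ((y : ℂ) ^ (w - 1) • f y)) (volume.restrict (Ioi 0)) :=
      i1.smul w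
    rw [setIntegral_congr_fun measurableSet_Ioi e1, integral_sub i3 i2, integral_smul,
      sub_zero] at key
    have e3 : w • (∫ y in Ioi (0 : ℝ), (y : ℂ) ^ (w - 1) • f y) =
        ∫ y in Ioi (0 : ℝ), (y : ℂ) ^ (w - 1) • th f y := sub_eq_zero.1 key
    simpa [mellin, smul_eq_mul] using e3
  · intro y hy
    have hy1 : (0 : ℝ) < y := hy
    have hy0 : (y : ℂ) ∈ slitPlane := by
      rw [ofReal_mem_slitPlane]
      exact hy1
    have h1 := (hasDerivAt_id (y : ℂ)).cpow_const (c := w) (by simpa using hy0)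
    have h2 := h1.comp_ofReal
    simpa using h2
  · intro y _
    exact (hf.differentiable one_ne_zero y).hasDerivAt
  · have i3 : Integrable (fun y : ℝ => w • ((y : ℂ) ^ (w - 1) • f y)) (volume.restrict (Ioi 0)) :=
      i1.smul w
    have i4 : IntegrableOn (fun y : ℝ => w • ((y : ℂ) ^ (w - 1) • f y) -
      (y : ℂ) ^ (w - 1) • th f y) (Ioi 0) := i3.sub i2
    refine (i4.congr_fun ?_ measurableSet_Ioi)
    intro y hy
    have hy0 : (y : ℂ) ≠ 0 := by
      have : (0 : ℝ) < y := hy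
      exact_mod_cast this.ne'
    have e2 : (y : ℂ) ^ w = (y : ℂ) ^ (w - 1) * y := by
      rw [cpow_sub _ _ hy0, cpow_one]
      field_simp
    simp only [Pi.add_apply, Pi.mul_apply, Pi.sub_apply, Pi.smul_apply, smul_eq_mul, th]
    rw [e2]
    ring
  · rcases hg.2 with h | h
    · have h1 : Tendsto (fun y : ℝ => (y : ℂ) ^ w) (𝓝[>] 0) (𝓝 0) := by
        have h2 : ContinuousAt (fun y : ℝ => (y : ℂ) ^ w) 0 :=
          continuousAt_ofReal_cpow_const 0 w (Or.inl h)
        have h3 := h2.tendsto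
        rw [ofReal_zero, zero_cpow (by intro h0; rw [h0] at h; simp at h)] at h3
        exact h3.mono_left nhdsWithin_le_nhds
      have h2 : Tendsto f (𝓝[>] 0) (𝓝 (f 0)) := (hc.tendsto 0).mono_left nhdsWithin_le_nhds
      have h3 := h1.mul h2
      rw [zero_mul] at h3
      exact h3
    · refine tendsto_const_nhds.congr' ?_
      have h6 : ∀ᶠ y : ℝ in 𝓝[>] 0, y < 1 := nhdsWithin_le_nhds (gt_mem_nhds one_pos)
      filter_upwards [h6] with y hy
      simp [h y hy.le]
  · refine tendsto_const_nhds.congr' ?_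
    filter_upwards [eventually_ge_atTop 2] with y hy
    simp [hg.1 y hy]

theorem th_smooth {f : ℝ → ℂ} (hf : ContDiff ℝ (⊤ : ℕ∞) f) : ContDiff ℝ (⊤ : ℕ∞) (th f) := by
  have h1 : ContDiff ℝ (⊤ : ℕ∞) (deriv f) := by
    exact (contDiff_infty_iff_deriv (𝕜 := ℝ) (f := f)).1 hf |>.2
  have h2 : ContDiff ℝ (⊤ : ℕ∞) (fun y : ℝ => (y : ℂ)) := Complex.ofRealCLM.contDiff
  exact (h2.mul h1).neg

theorem th_hi {f : ℝ → ℂ} (hf : ContDiff ℝ (⊤ : ℕ∞) f) (h : ∀ y, 2 ≤ y → f y = 0) :
    ∀ y, 2 ≤ y → th f y = 0 := by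
  have hc' : Continuous (deriv f) := (hf.of_le (by exact_mod_cast le_top)).continuous_deriv le_rfl
  have hd2 : ∀ y, 2 < y → deriv f y = 0 := by
    intro y hy
    have h1 : f =ᶠ[𝓝 y] fun _ => (0 : ℂ) := by
      filter_upwards [lt_mem_nhds hy] with z hz
      exact h z hz.le
    rw [h1.deriv_eq]
    simp
  intro y hy
  unfold th
  rcases hy.lt_or_eq with h' | h'
  · rw [hd2 y h']
    simp
  · rw [← h']
    have h3 : Tendsto (deriv f) (𝓝[>] 2) (𝓝 (deriv f 2)) :=
      (hc'.tendsto 2).mono_left nhdsWithin_le_nhds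
    have h4 : Tendsto (deriv f) (𝓝[>] 2) (𝓝 0) := by
      refine tendsto_const_nhds.congr' ?_
      filter_upwards [self_mem_nhdsWithin] with z hz
      exact (hd2 z hz).symm
    rw [tendsto_nhds_unique h3 h4]
    simp

/-- constant for `y ≤ 1` implies `th f = 0` for `y ≤ 1` -/
theorem th_lo {f : ℝ → ℂ} {c : ℂ} (hf : ContDiff ℝ (⊤ : ℕ∞) f) (h : ∀ y, y ≤ 1 → f y = c) :
    ∀ y, y ≤ 1 → th f y = 0 := by
  have hc' : Continuous (deriv f) := (hf.of_le (by exact_mod_cast le_top)).continuous_deriv le_rfl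
  have hd2 : ∀ y, y < 1 → deriv f y = 0 := by
    intro y hy
    have h1 : f =ᶠ[𝓝 y] fun _ => c := by
      filter_upwards [gt_mem_nhds hy] with z hz
      exact h z hz.le
    rw [h1.deriv_eq]
    simp
  intro y hy
  unfold th
  rcases hy.lt_or_eq with h' | h'
  · rw [hd2 y h']
    simp
  · rw [h']
    have h3 : Tendsto (deriv f) (𝓝[<] 1) (𝓝 (deriv f 1)) :=
      (hc'.tendsto 1).mono_left nhdsWithin_le_nhds
    have h4 : Tendsto (deriv f) (𝓝[<] 1) (𝓝 0) := by
      refine tendsto_const_nhds.congr' ?_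
      filter_upwards [self_mem_nhdsWithin] with z hz
      exact (hd2 z hz).symm
    rw [tendsto_nhds_unique h3 h4]
    simp

/-- rapid decay -/
theorem mdecay (b : ℝ) (J : ℕ) : ∀ f : ℝ → ℂ, ContDiff ℝ (⊤ : ℕ∞) f → (∀ y, 2 ≤ y → f y = 0) →
    (∀ y, y ≤ 1 → f y = 0) → ∃ C : ℝ, 0 < C ∧ ∀ w : ℂ, w.re ≤ b → ‖w‖ ^ J * ‖mellin f w‖ ≤ C := by
  induction J with
  | zero =>
    intro f hf h2 h1
    have hc := hf.continuous
    have hcs : HasCompactSupport f := by
      refine HasCompactSupport.intro (isCompact_Icc (a := (1 : ℝ)) (b := 2)) ?_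
      intro y hy
      rw [mem_Icc, not_and_or, not_le, not_le] at hy
      rcases hy with hy | hy
      · exact h1 y hy.le
      · exact h2 y hy.le
    have hfi : Integrable f := hc.integrable_of_hasCompactSupport hcs
    refine ⟨(2 : ℝ) ^ (max b 0) * (∫ y : ℝ, ‖f y‖) + 1, by positivity, fun w hw => ?_⟩
    rw [pow_zero, one_mul]
    have e1 : ‖mellin f w‖ ≤ ∫ y in Ioi (0 : ℝ), (2 : ℝ) ^ (max b 0) * ‖f y‖ := by
      refine norm_integral_le_of_norm_le ((hfi.norm.const_mul _).integrableOn) ?_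
      refine (ae_restrict_mem measurableSet_Ioi).mono fun y hy => ?_
      have hy0 : (0 : ℝ) < y := hy
      rw [norm_smul, norm_cpow_eq_rpow_re_of_pos hy0]
      rcases le_total y 1 with hy1 | hy1
      · rw [h1 y hy1]
        simp
      rcases le_total 2 y with hy2 | hy2
      · rw [h2 y hy2]
        simp
      refine mul_le_mul_of_nonneg_right ?_ (norm_nonneg _)
      calc y ^ (w - 1).re ≤ y ^ (max b 0) := by
            refine Real.rpow_le_rpow_of_exponent_le hy1 ?_
            simp only [sub_re, one_re]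
            have := le_max_left b 0
            linarith
        _ ≤ 2 ^ (max b 0) := Real.rpow_le_rpow hy0.le hy2 (le_max_right _ _)
    have e2 : ∫ y in Ioi (0 : ℝ), (2 : ℝ) ^ (max b 0) * ‖f y‖ ≤ (2 : ℝ) ^ (max b 0) * ∫ y : ℝ, ‖f y‖ := by
      rw [integral_const_mul]
      refine mul_le_mul_of_nonneg_left ?_ (by positivity)
      exact setIntegral_le_integral hfi.norm (Eventually.of_forall fun _ => norm_nonneg _)
    linarith
  | succ J ih =>
    intro f hf h2 h1
    obtain ⟨C, hC, h⟩ := ih (th f) (th_smooth hf) (th_hi hf h2) (th_lo hf h1)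
    refine ⟨C, hC, fun w hw => ?_⟩
    have h3 := h w hw
    rw [← mparts (hf.of_le (by exact_mod_cast le_top)) ⟨h2, Or.inr h1⟩, norm_mul] at h3
    calc ‖w‖ ^ (J + 1) * ‖mellin f w‖ = ‖w‖ ^ J * (‖w‖ * ‖mellin f w‖) := by ring
      _ ≤ C := h3

end Pool.Agent.Q151.GB
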