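import Pool.Agent.Q286.GB.Stm
import Pool.Agent.Q237.BD.Vert
import Pool.Agent.Q151.GB.Mel

/-!
# Project GB (helper286), job VO: the smoothed Dirichlet series
-/

set_option autoImplicit false

namespace Pool.Agent.Q151.GB

open Complex MeasureTheory Filter Topology Set
open Pool.Agent.Q286.GB

/-- the cutoff, complex valued -/
noncomputable def hC (y : ℝ) : ℂ := ((Hc y : ℝ) : ℂ)

theorem hC_smooth : ContDiff ℝ (⊤ : ℕ∞) hC := by
  have h1 : ContDiff ℝ (⊤ : ℕ∞) Hc := by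
    have h2 : ContDiff ℝ (⊤ : ℕ∞) (fun y : ℝ => 2 - y) := contDiff_const.sub contDiff_id
    exact (Real.smoothTransition.contDiff (n := ⊤)).comp h2
  exact Complex.ofRealCLM.contDiff.comp h1

theorem hC_lo : ∀ y, y ≤ 1 → hC y = 1 := by
  intro y hy
  have : Hc y = 1 := Real.smoothTransition.one_of_one_le (by linarith)
  unfold hC
  rw [this, ofReal_one]

theorem hC_hi : ∀ y, 2 ≤ y → hC y = 0 := by
  intro y hy
  have : Hc y = 0 := Real.smoothTransition.zero_of_nonpos (by linarith)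
  unfold hC
  rw [this, ofReal_zero]

/-- the entire numerator -/
noncomputable def NN (w : ℂ) : ℂ := mellin (th hC) w

theorem NN_diff : Differentiable ℂ NN :=
  mdiff (th_smooth hC_smooth).continuous (th_hi hC_smooth hC_hi) (th_lo hC_smooth hC_lo)

theorem NN_eq {w : ℂ} (hw : 0 < w.re) : w * mellin hC w = NN w :=
  mparts (hC_smooth.of_le (by exact_mod_cast le_top)) ⟨hC_hi, Or.inl hw⟩

theorem NN_decay (K b : ℝ) (hK : 0 ≤ K) : ∃ M : ℝ, 0 < M ∧ ∀ w : ℂ, w.re ≤ b →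
    (1 + ‖w‖) ^ K * ‖NN w‖ ≤ M / (1 + w.im ^ 2) := by
  obtain ⟨J, hJ⟩ := exists_nat_ge (K + 2)
  obtain ⟨C0, hC0, h0⟩ := mdecay b 0 (th hC) (th_smooth hC_smooth) (th_hi hC_smooth hC_hi)
    (th_lo hC_smooth hC_lo)
  obtain ⟨CJ, hCJ, h1⟩ := mdecay b J (th hC) (th_smooth hC_smooth) (th_hi hC_smooth hC_hi)
    (th_lo hC_smooth hC_lo)
  refine ⟨2 ^ J * (C0 + CJ), by positivity, fun w hw => ?_⟩
  have h2 := h0 w hw
  have h3 := h1 w hw
  rw [pow_zero, one_mul] at h2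
  rw [le_div_iff₀ (by positivity)]
  have hn : 0 ≤ ‖w‖ := norm_nonneg w
  have e1 : 1 + w.im ^ 2 ≤ (1 + ‖w‖) ^ (2 : ℝ) := by
    rw [Real.rpow_two]
    have : w.im ^ 2 ≤ ‖w‖ ^ 2 := by
      rw [← sq_abs]
      exact pow_le_pow_left₀ (abs_nonneg _) (Complex.abs_im_le_norm w) 2
    nlinarith
  have e2 : (1 + ‖w‖) ^ K * (1 + w.im ^ 2) ≤ (1 + ‖w‖) ^ J := by
    calc (1 + ‖w‖) ^ K * (1 + w.im ^ 2) ≤ (1 + ‖w‖) ^ K * (1 + ‖w‖) ^ (2 : ℝ) := by gcongr
      _ = (1 + ‖w‖) ^ (K + 2) := by rw [Real.rpow_add (by positivity)]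
      _ ≤ (1 + ‖w‖) ^ (J : ℝ) := Real.rpow_le_rpow_of_exponent_le (by linarith) hJ
      _ = (1 + ‖w‖) ^ J := Real.rpow_natCast _ _
  have e3 : (1 + ‖w‖) ^ J ≤ 2 ^ J * (1 + ‖w‖ ^ J) := by
    rcases le_total ‖w‖ 1 with h | h
    · calc (1 + ‖w‖) ^ J ≤ 2 ^ J := pow_le_pow_left₀ (by positivity) (by linarith) J
        _ ≤ 2 ^ J * (1 + ‖w‖ ^ J) := by
          have : (0 : ℝ) ≤ 2 ^ J * ‖w‖ ^ J := by positivity
          linarith
    · calc (1 + ‖w‖) ^ J ≤ (2 * ‖w‖) ^ J := pow_le_pow_left₀ (by positivity) (by linarith) J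
        _ = 2 ^ J * ‖w‖ ^ J := mul_pow _ _ _
        _ ≤ 2 ^ J * (1 + ‖w‖ ^ J) := by
          have : (0 : ℝ) ≤ 2 ^ J := by positivity
          linarith
  calc (1 + ‖w‖) ^ K * ‖NN w‖ * (1 + w.im ^ 2) = ((1 + ‖w‖) ^ K * (1 + w.im ^ 2)) * ‖NN w‖ := by ring
    _ ≤ (2 ^ J * (1 + ‖w‖ ^ J)) * ‖NN w‖ :=
        mul_le_mul_of_nonneg_right (e2.trans e3) (norm_nonneg _)
    _ = 2 ^ J * (‖NN w‖ + ‖w‖ ^ J * ‖NN w‖) := by ring
    _ ≤ 2 ^ J * (C0 + CJ) := by
        gcongr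
        · exact h2
        · exact h3

theorem mh_bd (c : ℝ) (hc : 1 ≤ c) : ∃ M : ℝ, 0 < M ∧ ∀ w : ℂ, w.re = c →
    ‖mellin hC w‖ ≤ M / (1 + w.im ^ 2) := by
  obtain ⟨M, hM, h⟩ := NN_decay 0 c le_rfl
  refine ⟨M, hM, fun w hw => ?_⟩
  have h1 := h w hw.le
  rw [Real.rpow_zero, one_mul] at h1
  have h2 : 1 ≤ ‖w‖ := by
    have := Complex.re_le_norm w
    linarith
  have h3 : ‖w‖ * ‖mellin hC w‖ = ‖NN w‖ := by
    rw [← norm_mul, NN_eq (by linarith)]
  nlinarith [norm_nonneg (mellin hC w)]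

theorem mh_int (c : ℝ) (hc : 1 ≤ c) : Integrable (fun u : ℝ => mellin hC (c + u * I)) := by
  obtain ⟨M, hM, h⟩ := mh_bd c hc
  refine Pool.Agent.Q237.BD.vint (M := M) ?_ h
  have h1 : ContinuousOn (fun w => NN w / w) {z : ℂ | z.re = c} := by
    refine NN_diff.continuous.continuousOn.div continuousOn_id ?_
    intro z hz h0
    have h2 : z = 0 := h0
    have h3 : z.re = c := hz
    rw [h2, zero_re] at h3
    linarith
  refine h1.congr ?_
  intro z hz
  have h2 : z.re = c := hz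
  have h3 : z ≠ 0 := by
    intro h0
    rw [h0] at h2
    simp at h2
    linarith
  beta_reduce
  rw [← NN_eq (w := z) (by linarith)]
  field_simp

theorem inv_h {c x : ℝ} (hc : 1 ≤ c) (hx : 0 < x) :
    ∫ u : ℝ, (x : ℂ) ^ (-((c : ℂ) + u * I)) * mellin hC (c + u * I) = 2 * Real.pi * hC x := by
  have h1 := mellinInv_mellin_eq c hC hx (mconv hC_smooth.continuous ⟨hC_hi, Or.inl (by simp; linarith)⟩)
    (mh_int c hc) hC_smooth.continuous.continuousAt
  rw [mellinInv] at h1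
  have hpi : (Real.pi : ℂ) ≠ 0 := by exact_mod_cast Real.pi_ne_zero
  obtain ⟨P, hP⟩ : ∃ P, P = ∫ (y : ℝ), (x : ℂ) ^ (-((c : ℂ) + y * I)) * mellin hC (c + y * I) :=
    ⟨_, rfl⟩
  simp only [smul_eq_mul] at h1
  rw [← hP] at h1 ⊢
  rw [← h1, Complex.real_smul]
  push_cast
  field_simp

theorem cp {x : ℝ} (hx : 0 < x) (w : ℂ) : (x : ℂ) ^ w = cexp (w * (Real.log x : ℝ)) := by
  have hx0 : (x : ℂ) ≠ 0 := by exact_mod_cast hx.ne'
  rw [cpow_def_of_ne_zero hx0, ← Complex.ofReal_log hx.le, mul_comm]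

theorem xm_int {c X : ℝ} (hc : 1 ≤ c) (hX : 0 < X) :
    Integrable (fun u : ℝ => (X : ℂ) ^ ((c : ℂ) + u * I) * mellin hC (c + u * I)) := by
  refine (mh_int c hc).bdd_mul (c := X ^ c) ?_ ?_
  · have h1 : Continuous (fun u : ℝ => (X : ℂ) ^ ((c : ℂ) + u * I)) := by
      have : (fun u : ℝ => (X : ℂ) ^ ((c : ℂ) + u * I)) =
          fun u : ℝ => cexp (((c : ℂ) + u * I) * (Real.log X : ℝ)) := by
        funext u
        exact cp hX _
      rw [this]
      fun_prop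
    exact h1.aestronglyMeasurable
  · refine Eventually.of_forall fun u => ?_
    rw [norm_cpow_eq_rpow_re_of_pos hX]
    simp

/-- the Mellin integral of the sum -/
theorem sum_eq (O : LFn) {s : ℂ} {c X : ℝ} (hc : 1 ≤ c) (hs : 2 ≤ s.re + c) (hX : 0 < X) :
    2 * Real.pi * ∑ m ∈ Finset.Icc 1 ⌊2 * X⌋₊, O.lam m * (m : ℂ) ^ (-s) * ((Hc (m / X) : ℝ) : ℂ) =
      ∫ u : ℝ, O.L (s + (c + u * I)) * (X : ℂ) ^ ((c : ℂ) + u * I) * mellin hC (c + u * I) := by
  have hF : ∀ m : ℕ, ∀ u : ℝ, m ≠ 0 → O.lam m * (m : ℂ) ^ (-(s + (c + u * I))) *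
      ((X : ℂ) ^ ((c : ℂ) + u * I) * mellin hC (c + u * I)) = O.lam m * (m : ℂ) ^ (-s) *
      ((((m : ℝ) / X : ℝ) : ℂ) ^ (-((c : ℂ) + u * I)) * mellin hC (c + u * I)) := by
    intro m u hm
    have hm0 : (0 : ℝ) < m := by exact_mod_cast Nat.pos_of_ne_zero hm
    have e1 : ((m : ℕ) : ℂ) = (((m : ℝ)) : ℂ) := by norm_cast
    rw [e1, cp hm0, cp hm0, cp hX, cp (div_pos hm0 hX), Real.log_div hm0.ne' hX.ne']
    have e2 : cexp (-(s + (c + u * I)) * (Real.log m : ℝ)) * cexp (((c : ℂ) + u * I) * (Real.log X : ℝ)) =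
        cexp (-s * (Real.log m : ℝ)) * cexp (-((c : ℂ) + u * I) * ((Real.log m - Real.log X : ℝ) : ℂ)) := by
      rw [← Complex.exp_add, ← Complex.exp_add]
      congr 1
      push_cast
      ring
    linear_combination (O.lam m * mellin hC (c + u * I)) * e2
  have hI := xm_int hc hX
  have hcont : ∀ m : ℕ, m ≠ 0 → Continuous (fun u : ℝ => (m : ℂ) ^ (-(s + (c + u * I)))) := by
    intro m hm
    have hm0 : (0 : ℝ) < m := by exact_mod_cast Nat.pos_of_ne_zero hm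
    have e1 : ((m : ℕ) : ℂ) = (((m : ℝ)) : ℂ) := by norm_cast
    have : (fun u : ℝ => (m : ℂ) ^ (-(s + (c + u * I)))) =
        fun u : ℝ => cexp ((-(s + (c + u * I))) * (Real.log m : ℝ)) := by
      funext u
      rw [e1]
      exact cp hm0 _
    rw [this]
    fun_prop
  have hnorm : ∀ m : ℕ, m ≠ 0 → ∀ u : ℝ, ‖(m : ℂ) ^ (-(s + (c + u * I)))‖ ≤ (m : ℝ) ^ (-2 : ℝ) := by
    intro m hm u
    have hm0 : (0 : ℝ) < m := by exact_mod_cast Nat.pos_of_ne_zero hm
    have hm1 : (1 : ℝ) ≤ m := by exact_mod_cast Nat.one_le_iff_ne_zero.2 hm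
    have e1 : ((m : ℕ) : ℂ) = (((m : ℝ)) : ℂ) := by norm_cast
    rw [e1, norm_cpow_eq_rpow_re_of_pos hm0]
    refine Real.rpow_le_rpow_of_exponent_le hm1 ?_
    simp
    linarith
  have hint : ∀ m : ℕ, Integrable (fun u : ℝ => O.lam m * (m : ℂ) ^ (-(s + (c + u * I))) *
      ((X : ℂ) ^ ((c : ℂ) + u * I) * mellin hC (c + u * I))) := by
    intro m
    rcases eq_or_ne m 0 with hm | hm
    · rw [hm, O.lam_zero]
      simp
    · refine hI.bdd_mul (c := ‖O.lam m‖ * (m : ℝ) ^ (-2 : ℝ)) ?_ ?_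
      · exact (continuous_const.mul (hcont m hm)).aestronglyMeasurable
      · refine Eventually.of_forall fun u => ?_
        rw [norm_mul]
        exact mul_le_mul_of_nonneg_left (hnorm m hm u) (norm_nonneg _)
  have hsum : Summable (fun m : ℕ => ∫ u : ℝ, ‖O.lam m * (m : ℂ) ^ (-(s + (c + u * I))) *
      ((X : ℂ) ^ ((c : ℂ) + u * I) * mellin hC (c + u * I))‖) := by
    refine Summable.of_nonneg_of_le (fun m => integral_nonneg fun u => norm_nonneg _) (fun m => ?_)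
      (O.lam_sum.mul_right (∫ u : ℝ, ‖(X : ℂ) ^ ((c : ℂ) + u * I) * mellin hC (c + u * I)‖))
    rw [← integral_const_mul]
    refine integral_mono (hint m).norm (hI.norm.const_mul _) fun u => ?_
    rcases eq_or_ne m 0 with hm | hm
    · beta_reduce
      rw [hm, O.lam_zero]
      simp
    · beta_reduce
      rw [norm_mul, norm_mul]
      exact mul_le_mul_of_nonneg_right (mul_le_mul_of_nonneg_left (hnorm m hm u) (norm_nonneg _))
        (norm_nonneg _)
  have h1 := hasSum_integral_of_summable_integral_norm hint hsum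
  have h2 : ∀ u : ℝ, ∑' m : ℕ, O.lam m * (m : ℂ) ^ (-(s + (c + u * I))) *
      ((X : ℂ) ^ ((c : ℂ) + u * I) * mellin hC (c + u * I)) =
      O.L (s + (c + u * I)) * (X : ℂ) ^ ((c : ℂ) + u * I) * mellin hC (c + u * I) := by
    intro u
    have h3 := (O.ser (s + (c + u * I)) (by simp; linarith)).mul_right
      ((X : ℂ) ^ ((c : ℂ) + u * I) * mellin hC (c + u * I))
    rw [h3.tsum_eq]
    ring
  rw [integral_congr_ae (Eventually.of_forall h2)] at h1
  have h3 : ∀ m : ℕ, (∫ u : ℝ, O.lam m * (m : ℂ) ^ (-(s + (c + u * I))) *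
      ((X : ℂ) ^ ((c : ℂ) + u * I) * mellin hC (c + u * I))) =
      2 * Real.pi * (O.lam m * (m : ℂ) ^ (-s) * ((Hc (m / X) : ℝ) : ℂ)) := by
    intro m
    rcases eq_or_ne m 0 with hm | hm
    · rw [hm, O.lam_zero]
      simp
    · have hm0 : (0 : ℝ) < m := by exact_mod_cast Nat.pos_of_ne_zero hm
      rw [integral_congr_ae (Eventually.of_forall fun u => hF m u hm), integral_const_mul,
        inv_h hc (div_pos hm0 hX)]
      unfold hC
      ring
  rw [show (fun m : ℕ => ∫ u : ℝ, O.lam m * (m : ℂ) ^ (-(s + (c + u * I))) *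
      ((X : ℂ) ^ ((c : ℂ) + u * I) * mellin hC (c + u * I))) =
      fun m : ℕ => 2 * Real.pi * (O.lam m * (m : ℂ) ^ (-s) * ((Hc (m / X) : ℝ) : ℂ)) from
      funext h3] at h1
  have h4 : HasSum (fun m : ℕ => 2 * Real.pi * (O.lam m * (m : ℂ) ^ (-s) * ((Hc (m / X) : ℝ) : ℂ)))
      (∑ m ∈ Finset.Icc 1 ⌊2 * X⌋₊, 2 * Real.pi * (O.lam m * (m : ℂ) ^ (-s) *
        ((Hc (m / X) : ℝ) : ℂ))) := by
    refine hasSum_sum_of_ne_finset_zero fun m hm => ?_
    rw [Finset.mem_Icc, not_and_or, not_le, not_le] at hm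
    rcases hm with hm | hm
    · have hm0 : m = 0 := by omega
      rw [hm0, O.lam_zero]
      simp
    · have h5 : 2 * X < m := (Nat.floor_lt (by positivity)).1 hm
      have h6 : hC (m / X) = 0 := hC_hi _ (by rw [le_div_iff₀ hX]; exact h5.le)
      unfold hC at h6
      rw [h6]
      simp
  rw [Finset.mul_sum]
  exact (h1.unique h4).symm

/-- the same for the constant -/
theorem const_eq (z : ℂ) {c X : ℝ} (hc : 1 ≤ c) (hX : 1 ≤ X) :
    2 * Real.pi * z =
      ∫ u : ℝ, z * (X : ℂ) ^ ((c : ℂ) + u * I) * mellin hC (c + u * I) := by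
  have hX0 : 0 < X := by linarith
  have h1 := inv_h hc (x := 1 / X) (by positivity)
  rw [hC_lo (1 / X) (by rw [div_le_one hX0]; exact hX), mul_one] at h1
  rw [← h1, mul_comm, ← integral_const_mul]
  congr 1
  funext u
  rw [cp hX0, cp (by positivity), one_div, Real.log_inv]
  have : -((c : ℂ) + u * I) * ((-Real.log X : ℝ) : ℂ) = ((c : ℂ) + u * I) * (Real.log X : ℝ) := by
    push_cast
    ring
  rw [this]
  ring

/-- the difference quotient is bounded -/
theorem dsl_bd (O : LFn) (B R : ℝ) (hB : 0 ≤ B) (hR : 0 ≤ R) : ∃ C K : ℝ, 0 < C ∧ 0 ≤ K ∧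
    ∀ s w : ℂ, ‖s‖ ≤ R → -B ≤ w.re → ‖dslope O.L s (s + w)‖ ≤ C * (1 + ‖w‖) ^ K := by
  obtain ⟨C, K, hC, hK, h⟩ := O.grow (B + R)
  have hd : Continuous (deriv O.L) := by
    have := (O.entire.contDiff (n := 1)).continuous_deriv le_rfl
    exact this
  obtain ⟨M, hM⟩ := (isCompact_closedBall (0 : ℂ) (R + 1)).exists_bound_of_continuousOn
    hd.continuousOn
  have hM0 : 0 ≤ M := (norm_nonneg _).trans (hM 0 (by simp; linarith))
  refine ⟨M + 2 * C * (1 + R) ^ K, K, by positivity, hK, fun s w hs hw => ?_⟩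
  have hw0 := norm_nonneg w
  have hpw : 1 ≤ (1 + ‖w‖) ^ K := Real.one_le_rpow (by linarith) hK
  rcases le_total ‖w‖ 1 with h1 | h1
  · have h2 : ‖dslope O.L s (s + w)‖ ≤ M := by
      rcases eq_or_ne w 0 with h3 | h3
      · rw [h3, add_zero, dslope_same]
        refine hM s ?_
        rw [mem_closedBall_zero_iff]
        linarith
      · rw [dslope_of_ne _ (by simpa using h3), slope_def_field]
        have h4 : ‖O.L (s + w) - O.L s‖ ≤ M * ‖s + w - s‖ := by
          refine Convex.norm_image_sub_le_of_norm_deriv_le (s := Metric.closedBall (0 : ℂ) (R + 1))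
            (fun x _ => O.entire x) (fun x hx => hM x hx) (convex_closedBall _ _) ?_ ?_
          · rw [mem_closedBall_zero_iff]
            linarith
          · rw [mem_closedBall_zero_iff]
            have := norm_add_le s w
            linarith
        rw [norm_div, div_le_iff₀ (by simpa using h3)]
        exact h4
    calc ‖dslope O.L s (s + w)‖ ≤ M * 1 := by linarith
      _ ≤ (M + 2 * C * (1 + R) ^ K) * (1 + ‖w‖) ^ K := by
        gcongr
        have : 0 ≤ 2 * C * (1 + R) ^ K := by positivity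
        linarith
  · have h3 : w ≠ 0 := by
      intro h0
      rw [h0] at h1
      simp at h1
      linarith
    rw [dslope_of_ne _ (by simpa using h3), slope_def_field, norm_div]
    have hre : -R ≤ s.re := by
      have := Complex.abs_re_le_norm s
      have h5 := neg_abs_le s.re
      linarith
    have h4 := h (s + w) (by simp; linarith)
    have h5 := h s (by linarith)
    have h6 : (1 + ‖s + w‖) ^ K ≤ (1 + R) ^ K * (1 + ‖w‖) ^ K := by
      rw [← Real.mul_rpow (by positivity) (by positivity)]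
      refine Real.rpow_le_rpow (by positivity) ?_ hK
      have := norm_add_le s w
      nlinarith
    have h7 : (1 + ‖s‖) ^ K ≤ (1 + R) ^ K * (1 + ‖w‖) ^ K := by
      rw [← Real.mul_rpow (by positivity) (by positivity)]
      refine Real.rpow_le_rpow (by positivity) ?_ hK
      nlinarith
    calc ‖O.L (s + w) - O.L s‖ / ‖s + w - s‖ ≤ ‖O.L (s + w) - O.L s‖ / 1 := by
          refine div_le_div_of_nonneg_left (norm_nonneg _) one_pos ?_
          rw [add_sub_cancel_left]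
          exact h1
      _ ≤ ‖O.L (s + w)‖ + ‖O.L s‖ := by
          rw [div_one]
          exact norm_sub_le _ _
      _ ≤ C * (1 + ‖s + w‖) ^ K + C * (1 + ‖s‖) ^ K := add_le_add h4 h5
      _ ≤ C * ((1 + R) ^ K * (1 + ‖w‖) ^ K) + C * ((1 + R) ^ K * (1 + ‖w‖) ^ K) := by gcongr
      _ = (2 * C * (1 + R) ^ K) * (1 + ‖w‖) ^ K := by ring
      _ ≤ (M + 2 * C * (1 + R) ^ K) * (1 + ‖w‖) ^ K := by
        gcongr
        linarith

/-- JOB GB-VO -/
theorem t_VO : S_VO := by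
  intro O B R
  obtain ⟨B', hB'⟩ : ∃ B', B' = max B 1 := ⟨_, rfl⟩
  obtain ⟨R', hR'⟩ : ∃ R', R' = max R 0 := ⟨_, rfl⟩
  have hB1 : 1 ≤ B' := hB' ▸ le_max_right _ _
  have hBB : B ≤ B' := hB' ▸ le_max_left _ _
  have hR0 : 0 ≤ R' := hR' ▸ le_max_right _ _
  have hRR : R ≤ R' := hR' ▸ le_max_left _ _
  obtain ⟨C, K, hC, hK, h⟩ := dsl_bd O B' R' (by linarith) hR0
  obtain ⟨c, hc⟩ : ∃ c, c = R' + 3 := ⟨_, rfl⟩
  have hc1 : 1 ≤ c := by linarith
  obtain ⟨M, hM, hN⟩ := NN_decay K c hK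
  refine ⟨C * M, by positivity, fun s hs X hX => ?_⟩
  have hX0 : 0 < X := by linarith
  have hs' : ‖s‖ ≤ R' := hs.trans hRR
  have hre : -R' ≤ s.re := by
    have := Complex.abs_re_le_norm s
    have h5 := neg_abs_le s.re
    linarith
  have hXd : ∀ w : ℂ, (X : ℂ) ^ w = cexp (w * (Real.log X : ℝ)) := cp hX0
  have hG : Differentiable ℂ (fun w : ℂ => dslope O.L s (s + w) * ((X : ℂ) ^ w * NN w)) := by
    have h1 : Differentiable ℂ (dslope O.L s) := by
      have := (differentiableOn_dslope (f := O.L) (c := s) (s := univ) univ_mem).2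
        O.entire.differentiableOn
      exact differentiableOn_univ.1 this
    have h2 : Differentiable ℂ (fun w : ℂ => (X : ℂ) ^ w) := by
      rw [funext hXd]
      fun_prop
    exact (h1.comp (differentiable_const s |>.add differentiable_id)).mul (h2.mul NN_diff)
  have hb : ∀ w : ℂ, -B' ≤ w.re → w.re ≤ c →
      ‖dslope O.L s (s + w) * ((X : ℂ) ^ w * NN w)‖ ≤ (C * M * X ^ w.re) / (1 + w.im ^ 2) := by
    intro w h1 h2
    rw [norm_mul, norm_mul, norm_cpow_eq_rpow_re_of_pos hX0]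
    calc ‖dslope O.L s (s + w)‖ * (X ^ w.re * ‖NN w‖) ≤
        (C * (1 + ‖w‖) ^ K) * (X ^ w.re * ‖NN w‖) := by
          gcongr
          exact h s w hs' h1
      _ = (C * X ^ w.re) * ((1 + ‖w‖) ^ K * ‖NN w‖) := by ring
      _ ≤ (C * X ^ w.re) * (M / (1 + w.im ^ 2)) := by
          gcongr
          exact hN w h2
      _ = (C * M * X ^ w.re) / (1 + w.im ^ 2) := by ring
  have hshift := Pool.Agent.Q237.BD.vshift (F := fun w : ℂ => dslope O.L s (s + w) *
    ((X : ℂ) ^ w * NN w)) (a := -B') (b := c) (M := C * M * X ^ c) (by linarith) ∅ countable_empty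
    hG.continuous.continuousOn (fun z _ _ _ => hG z) (by
      intro z h1 h2
      refine (hb z h1 h2).trans ?_
      gcongr)
  have h1 := sum_eq O (s := s) (c := c) (X := X) hc1 (by linarith) hX0
  have h2 := const_eq (O.L s) (c := c) (X := X) hc1 hX
  have hi : Integrable (fun u : ℝ => O.L s * (X : ℂ) ^ ((c : ℂ) + u * I) *
      mellin Q151.GB.hC (c + u * I)) := by
    have := (xm_int hc1 hX0).const_mul (O.L s)
    refine this.congr (Eventually.of_forall fun u => ?_)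
    beta_reduce
    ring
  have hGi : Integrable (fun u : ℝ => (fun w : ℂ => dslope O.L s (s + w) *
      ((X : ℂ) ^ w * NN w)) (c + u * I)) := by
    refine Pool.Agent.Q237.BD.vint (M := C * M * X ^ c) hG.continuous.continuousOn ?_
    intro z hz
    have := hb z (by linarith) (by linarith)
    rwa [hz] at this
  have e1 : ∀ u : ℝ, O.L (s + (c + u * I)) * (X : ℂ) ^ ((c : ℂ) + u * I) *
      mellin Q151.GB.hC (c + u * I) = O.L s * (X : ℂ) ^ ((c : ℂ) + u * I) *
      mellin Q151.GB.hC (c + u * I) + (fun w : ℂ => dslope O.L s (s + w) *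
      ((X : ℂ) ^ w * NN w)) (c + u * I) := by
    intro u
    have e2 := sub_smul_dslope O.L s (s + ((c : ℂ) + u * I))
    rw [add_sub_cancel_left, smul_eq_mul] at e2
    have e3 := NN_eq (w := (c : ℂ) + u * I) (by simp; linarith)
    beta_reduce
    rw [← e3]
    linear_combination (-(X : ℂ) ^ ((c : ℂ) + u * I) * mellin Q151.GB.hC (c + u * I)) * e2
  rw [integral_congr_ae (Eventually.of_forall e1), integral_add hi hGi, ← h2] at h1
  have h3 : 2 * Real.pi * (∑ m ∈ Finset.Icc 1 ⌊2 * X⌋₊, O.lam m * (m : ℂ) ^ (-s) *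
      ((Hc (m / X) : ℝ) : ℂ) - O.L s) = ∫ u : ℝ, (fun w : ℂ => dslope O.L s (s + w) *
      ((X : ℂ) ^ w * NN w)) (((-B' : ℝ) : ℂ) + u * I) := by
    rw [hshift]
    linear_combination h1
  have h4 : ‖∫ u : ℝ, (fun w : ℂ => dslope O.L s (s + w) *
      ((X : ℂ) ^ w * NN w)) (((-B' : ℝ) : ℂ) + u * I)‖ ≤ C * M * X ^ (-B') * Real.pi := by
    have h5 : ‖∫ u : ℝ, (fun w : ℂ => dslope O.L s (s + w) *
      ((X : ℂ) ^ w * NN w)) (((-B' : ℝ) : ℂ) + u * I)‖ ≤
        ∫ u : ℝ, C * M * X ^ (-B') * (1 + u ^ 2)⁻¹ := by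
      refine norm_integral_le_of_norm_le (integrable_inv_one_add_sq.const_mul _) ?_
      refine Eventually.of_forall fun u => ?_
      have := hb (((-B' : ℝ) : ℂ) + u * I) (by simp) (by simp; linarith)
      simpa [div_eq_mul_inv] using this
    rw [integral_const_mul, integral_univ_inv_one_add_sq] at h5
    exact h5
  rw [← h3, norm_mul] at h4
  have h6 : ‖(2 * Real.pi : ℂ)‖ = 2 * Real.pi := by
    rw [norm_mul, Complex.norm_real, Complex.norm_ofNat, Real.norm_eq_abs, abs_of_pos Real.pi_pos]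
  rw [h6] at h4
  have h7 : ‖∑ m ∈ Finset.Icc 1 ⌊2 * X⌋₊, O.lam m * (m : ℂ) ^ (-s) *
      ((Hc (m / X) : ℝ) : ℂ) - O.L s‖ * 2 ≤ C * M * X ^ (-B') := by
    have hpi := Real.pi_pos
    by_contra hn
    push Not at hn
    nlinarith
  have h8 : X ^ (-B') ≤ X ^ (-B) := Real.rpow_le_rpow_of_exponent_le hX (by linarith)
  have h9 : C * M * X ^ (-B') ≤ C * M * X ^ (-B) := by gcongr
  have h10 := norm_nonneg (∑ m ∈ Finset.Icc 1 ⌊2 * X⌋₊, O.lam m * (m : ℂ) ^ (-s) *
      ((Hc (m / X) : ℝ) : ℂ) - O.L s)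
  linarith

end Pool.Agent.Q151.GB
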