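import Pool.Agent.Q151.GB.Eul
import Pool.Agent.Q286.GB.Stm2

/-!
# Project GB (helper286), job EUL, part 2: Euler products
-/

set_option autoImplicit false

namespace Pool.Agent.Q151.GB

open Complex Filter Topology Finset

theorem prod_two_pow (x : ℂ) (n : ℕ) :
    (1 - x) * ∏ j ∈ range n, (1 + x ^ 2 ^ j) = 1 - x ^ 2 ^ n := by
  induction n with
  | zero => simp
  | succ n ih =>
    rw [Finset.prod_range_succ, ← mul_assoc, ih, pow_succ, pow_mul]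
    ring

theorem summable_two_pow {x : ℂ} (hx : ‖x‖ ≤ 1 / 2) :
    Summable (fun j : ℕ => ‖x ^ 2 ^ j‖) := by
  refine Summable.of_nonneg_of_le (fun _ => norm_nonneg _) (fun j => ?_)
    (summable_geometric_of_lt_one (by norm_num : (0 : ℝ) ≤ 1 / 2) (by norm_num))
  rw [norm_pow]
  calc ‖x‖ ^ 2 ^ j ≤ (1 / 2 : ℝ) ^ 2 ^ j := pow_le_pow_left₀ (norm_nonneg _) hx _
    _ ≤ (1 / 2 : ℝ) ^ j := pow_le_pow_of_le_one (by norm_num) (by norm_num)
        (Nat.lt_two_pow_self).le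

theorem hasProd_two_pow {x : ℂ} (hx : ‖x‖ ≤ 1 / 2) :
    HasProd (fun j : ℕ => 1 + x ^ 2 ^ j) (1 - x)⁻¹ := by
  have hne : 1 - x ≠ 0 := by
    intro h
    have : x = 1 := by linear_combination -h
    rw [this] at hx
    norm_num at hx
  have h1 : Multipliable (fun j : ℕ => 1 + x ^ 2 ^ j) :=
    multipliable_one_add_of_summable (summable_two_pow hx)
  have h2 := h1.hasProd.tendsto_prod_nat
  have h3 : Tendsto (fun n : ℕ => ∏ j ∈ range n, (1 + x ^ 2 ^ j)) atTop (𝓝 (1 - x)⁻¹) := by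
    have h4 : ∀ n : ℕ, ∏ j ∈ range n, (1 + x ^ 2 ^ j) = (1 - x ^ 2 ^ n) * (1 - x)⁻¹ := by
      intro n
      rw [← prod_two_pow]
      field_simp
    simp only [h4]
    have h5 : Tendsto (fun n : ℕ => x ^ 2 ^ n) atTop (𝓝 0) :=
      tendsto_zero_iff_norm_tendsto_zero.2 (summable_two_pow hx).tendsto_atTop_zero
    have h6 := (h5.const_sub 1).mul_const (1 - x)⁻¹
    rw [sub_zero, one_mul] at h6
    exact h6
  have h4 := tendsto_nhds_unique h2 h3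
  rw [← h4]
  exact h1.hasProd

theorem lhs_of {a : ℕ → ℂ} (h0 : a 0 = 0) {s v : ℂ} (h : HasSum (fun n : ℕ => a n * (n : ℂ) ^ (-s)) v) :
    LSeriesHasSum a s v := by
  unfold LSeriesHasSum
  have e : LSeries.term a s = fun n : ℕ => a n * (n : ℂ) ^ (-s) :=
    funext fun n => LSeries.term_def₀ h0 s n
  rw [e]
  exact h

theorem half_rpow : (2 : ℝ) ^ (-(3 / 2) : ℝ) ≤ 1 / 2 := by
  have h1 : (2 : ℝ) ^ (-(3 / 2) : ℝ) ≤ (2 : ℝ) ^ (-1 : ℝ) :=
    Real.rpow_le_rpow_of_exponent_le (by norm_num) (by norm_num)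
  rw [Real.rpow_neg_one] at h1
  linarith

/-- the local parameters are small -/
theorem small {q : ℕ} (hq : 2 ≤ q) {β : ℂ} (hβ : ‖β‖ ≤ Real.sqrt q) :
    ‖β‖ * (q : ℝ) ^ (-2 : ℝ) ≤ (q : ℝ) ^ (-(3 / 2) : ℝ) ∧ (q : ℝ) ^ (-(3 / 2) : ℝ) ≤ 1 / 2 := by
  have hq0 : (0 : ℝ) < q := by positivity
  have hq2 : (2 : ℝ) ≤ q := by exact_mod_cast hq
  constructor
  · calc ‖β‖ * (q : ℝ) ^ (-2 : ℝ) ≤ Real.sqrt q * (q : ℝ) ^ (-2 : ℝ) :=
        mul_le_mul_of_nonneg_right hβ (by positivity)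
      _ = (q : ℝ) ^ (1 / 2 : ℝ) * (q : ℝ) ^ (-2 : ℝ) := by rw [Real.sqrt_eq_rpow]
      _ = (q : ℝ) ^ (-(3 / 2) : ℝ) := by
        rw [← Real.rpow_add hq0]; norm_num
  · calc (q : ℝ) ^ (-(3 / 2) : ℝ) ≤ (2 : ℝ) ^ (-(3 / 2) : ℝ) :=
        Real.rpow_le_rpow_of_nonpos (by norm_num) hq2 (by norm_num)
      _ ≤ 1 / 2 := half_rpow

theorem cpow_pow' (q m : ℕ) (s : ℂ) : ((q ^ m : ℕ) : ℂ) ^ s = ((q : ℂ) ^ s) ^ m := by
  have h := natprod_cpow (range m) (fun _ => q) s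
  simpa using h

theorem t_EUL : Pool.Agent.Q286.GB.S_EUL := by
  classical
  intro ι D q β hq hs hβ
  obtain ⟨Q, hQ⟩ : ∃ Q : ι × Fin D → ℕ, Q = fun x => q x.1 := ⟨_, rfl⟩
  obtain ⟨b, hb⟩ : ∃ b : ι × Fin D → ℂ, b = fun x => β x.1 x.2 := ⟨_, rfl⟩
  have hQ2 : ∀ x, 2 ≤ Q x := fun x => by rw [hQ]; exact hq x.1
  have hbQ : ∀ x, ‖b x‖ ≤ Real.sqrt (Q x) := fun x => by rw [hQ, hb]; exact hβ x.1 x.2
  have hsQ : Summable (fun x => (Q x : ℝ) ^ (-(3 / 2) : ℝ)) := by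
    have h1 : Summable (fun _ : Fin D => (1 : ℝ)) := (hasSum_fintype _).summable
    have h2 := hs.mul_of_nonneg h1 (fun i => by positivity) (fun _ => by positivity)
    rw [hQ]
    simpa using h2
  -- the series for the product of the factors `1 - b Q^(-s)`
  obtain ⟨mu, mu0, mu1, musum, muser⟩ := series Q (fun x => -b x) hQ2 (by
    refine Summable.of_nonneg_of_le (fun x => by positivity) (fun x => ?_) hsQ
    rw [norm_neg]
    exact (small (hQ2 x) (hbQ x)).1)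
  -- the series for the inverse
  obtain ⟨lam, lam0, lam1, lamsum, lamser⟩ := series (fun x : (ι × Fin D) × ℕ => Q x.1 ^ 2 ^ x.2)
    (fun x => b x.1 ^ 2 ^ x.2) (fun x => by
      calc 2 ≤ Q x.1 := hQ2 x.1
        _ = Q x.1 ^ 1 := (pow_one _).symm
        _ ≤ Q x.1 ^ 2 ^ x.2 := Nat.pow_le_pow_right (by have := hQ2 x.1; omega) Nat.one_le_two_pow)
    (by
      have h1 : Summable (fun j : ℕ => 2 * (1 / 2 : ℝ) ^ j) :=
        (summable_geometric_of_lt_one (by norm_num : (0 : ℝ) ≤ 1 / 2) (by norm_num)).mul_left 2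
      have h2 := hsQ.mul_of_nonneg h1 (fun i => by positivity) (fun _ => by positivity)
      refine Summable.of_nonneg_of_le (fun x => by positivity) (fun x => ?_) h2
      obtain ⟨x, j⟩ := x
      simp only
      have hq0 : (0 : ℝ) < Q x := by have := hQ2 x; positivity
      obtain ⟨h3, h4⟩ := small (hQ2 x) (hbQ x)
      have h5 : ‖b x ^ 2 ^ j‖ * ((Q x ^ 2 ^ j : ℕ) : ℝ) ^ (-2 : ℝ) =
          (‖b x‖ * (Q x : ℝ) ^ (-2 : ℝ)) ^ 2 ^ j := by
        rw [mul_pow, norm_pow]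
        congr 1
        rw [Nat.cast_pow, ← Real.rpow_natCast, ← Real.rpow_mul hq0.le, ← Real.rpow_natCast,
          ← Real.rpow_mul hq0.le, mul_comm]
      rw [h5]
      obtain ⟨m, hm⟩ : ∃ m, 2 ^ j = m + 1 := ⟨2 ^ j - 1, by
        have := Nat.one_le_two_pow (n := j); omega⟩
      have hmj : j ≤ m := by
        have := Nat.lt_two_pow_self (n := j)
        omega
      rw [hm, pow_succ]
      have h6 : 0 ≤ ‖b x‖ * (Q x : ℝ) ^ (-2 : ℝ) := by positivity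
      calc (‖b x‖ * (Q x : ℝ) ^ (-2 : ℝ)) ^ m * (‖b x‖ * (Q x : ℝ) ^ (-2 : ℝ)) ≤
          (1 / 2 : ℝ) ^ m * (Q x : ℝ) ^ (-(3 / 2) : ℝ) :=
            mul_le_mul (pow_le_pow_left₀ h6 (h3.trans h4) _) h3 h6 (by positivity)
        _ ≤ (1 / 2 : ℝ) ^ j * (Q x : ℝ) ^ (-(3 / 2) : ℝ) :=
            mul_le_mul_of_nonneg_right (pow_le_pow_of_le_one (by norm_num) (by norm_num) hmj)
              (by positivity)
        _ ≤ (Q x : ℝ) ^ (-(3 / 2) : ℝ) * (2 * (1 / 2 : ℝ) ^ j) := by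
            have : (0 : ℝ) ≤ (1 / 2 : ℝ) ^ j * (Q x : ℝ) ^ (-(3 / 2) : ℝ) := by positivity
            nlinarith)
  -- the local factors
  have hx : ∀ (s : ℂ), 2 ≤ s.re → ∀ x, ‖b x * (Q x : ℂ) ^ (-s)‖ ≤ (Q x : ℝ) ^ (-(3 / 2) : ℝ) ∧
      ‖b x * (Q x : ℂ) ^ (-s)‖ ≤ 1 / 2 := by
    intro s hs2 x
    have hq0 : 0 < Q x := by have := hQ2 x; omega
    obtain ⟨h3, h4⟩ := small (hQ2 x) (hbQ x)
    have h5 : ‖b x * (Q x : ℂ) ^ (-s)‖ ≤ ‖b x‖ * (Q x : ℝ) ^ (-2 : ℝ) := by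
      rw [norm_mul]
      exact mul_le_mul_of_nonneg_left (norm_cpow_neg hq0 hs2) (norm_nonneg _)
    exact ⟨h5.trans h3, (h5.trans h3).trans h4⟩
  have hmul : ∀ (s : ℂ), 2 ≤ s.re →
      Multipliable (fun x : (ι × Fin D) × ℕ => 1 + b x.1 ^ 2 ^ x.2 *
        ((Q x.1 ^ 2 ^ x.2 : ℕ) : ℂ) ^ (-s)) := by
    intro s hs2
    apply multipliable_one_add_of_summable
    refine Summable.of_nonneg_of_le (fun _ => norm_nonneg _) (fun x => ?_)
      (f := fun x : (ι × Fin D) × ℕ => (Q x.1 : ℝ) ^ (-(3 / 2) : ℝ) * (2 * (1 / 2 : ℝ) ^ x.2)) ?_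
    · obtain ⟨x, j⟩ := x
      simp only
      obtain ⟨h3, h4⟩ := hx s hs2 x
      rw [cpow_pow', ← mul_pow, norm_pow]
      obtain ⟨m, hm⟩ : ∃ m, 2 ^ j = m + 1 := ⟨2 ^ j - 1, by
        have := Nat.one_le_two_pow (n := j); omega⟩
      have hmj : j ≤ m := by
        have := Nat.lt_two_pow_self (n := j)
        omega
      rw [hm, pow_succ]
      have h6 := norm_nonneg (b x * (Q x : ℂ) ^ (-s))
      calc ‖b x * (Q x : ℂ) ^ (-s)‖ ^ m * ‖b x * (Q x : ℂ) ^ (-s)‖ ≤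
          (1 / 2 : ℝ) ^ m * (Q x : ℝ) ^ (-(3 / 2) : ℝ) :=
            mul_le_mul (pow_le_pow_left₀ h6 h4 _) h3 h6 (by positivity)
        _ ≤ (1 / 2 : ℝ) ^ j * (Q x : ℝ) ^ (-(3 / 2) : ℝ) :=
            mul_le_mul_of_nonneg_right (pow_le_pow_of_le_one (by norm_num) (by norm_num) hmj)
              (by positivity)
        _ ≤ (Q x : ℝ) ^ (-(3 / 2) : ℝ) * (2 * (1 / 2 : ℝ) ^ j) := by
            have : (0 : ℝ) ≤ (1 / 2 : ℝ) ^ j * (Q x : ℝ) ^ (-(3 / 2) : ℝ) := by positivity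
            nlinarith
    · have h1 : Summable (fun j : ℕ => 2 * (1 / 2 : ℝ) ^ j) :=
        (summable_geometric_of_lt_one (by norm_num : (0 : ℝ) ≤ 1 / 2) (by norm_num)).mul_left 2
      exact hsQ.mul_of_nonneg h1 (fun i => by positivity) (fun _ => by positivity)
  have hinv : ∀ (s : ℂ), 2 ≤ s.re → HasProd (fun x => (1 - b x * (Q x : ℂ) ^ (-s))⁻¹)
      (∏' x : (ι × Fin D) × ℕ, (1 + b x.1 ^ 2 ^ x.2 * ((Q x.1 ^ 2 ^ x.2 : ℕ) : ℂ) ^ (-s))) := by
    intro s hs2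
    refine (hmul s hs2).hasProd.prod_fiberwise fun x => ?_
    have h1 := hasProd_two_pow (hx s hs2 x).2
    have e : (fun j : ℕ => 1 + (b x * (Q x : ℂ) ^ (-s)) ^ 2 ^ j) =
        fun j : ℕ => 1 + b x ^ 2 ^ j * ((Q x ^ 2 ^ j : ℕ) : ℂ) ^ (-s) := by
      funext j
      rw [cpow_pow', mul_pow]
    rw [e] at h1
    exact h1
  have hdir : ∀ (s : ℂ), 2 ≤ s.re → HasProd (fun x => 1 - b x * (Q x : ℂ) ^ (-s))
      (∏' x, (1 + -b x * (Q x : ℂ) ^ (-s))) := by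
    intro s hs2
    have h1 : Multipliable (fun x => 1 + -b x * (Q x : ℂ) ^ (-s)) := by
      apply multipliable_one_add_of_summable
      refine Summable.of_nonneg_of_le (fun _ => norm_nonneg _) (fun x => ?_) hsQ
      rw [neg_mul, norm_neg]
      exact (hx s hs2 x).1
    have h2 := h1.hasProd
    have e : (fun x => 1 + -b x * (Q x : ℂ) ^ (-s)) = fun x => 1 - b x * (Q x : ℂ) ^ (-s) := by
      funext x
      ring
    rw [e] at h2 ⊢
    exact h2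
  have hne : ∀ (s : ℂ), 2 ≤ s.re → ∀ x, 1 - b x * (Q x : ℂ) ^ (-s) ≠ 0 := by
    intro s hs2 x h
    have h1 : b x * (Q x : ℂ) ^ (-s) = 1 := by linear_combination -h
    have h2 := (hx s hs2 x).2
    rw [h1] at h2
    norm_num at h2
  have hone : ∀ (s : ℂ), 2 ≤ s.re →
      (∏' x : (ι × Fin D) × ℕ, (1 + b x.1 ^ 2 ^ x.2 * ((Q x.1 ^ 2 ^ x.2 : ℕ) : ℂ) ^ (-s))) *
      (∏' x, (1 + -b x * (Q x : ℂ) ^ (-s))) = 1 := by
    intro s hs2
    have h1 := (hinv s hs2).mul (hdir s hs2)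
    have e : (fun x => (1 - b x * (Q x : ℂ) ^ (-s))⁻¹ * (1 - b x * (Q x : ℂ) ^ (-s))) =
        fun _ => (1 : ℂ) := by
      funext x
      exact inv_mul_cancel₀ (hne s hs2 x)
    rw [e] at h1
    exact h1.unique hasProd_one
  refine ⟨lam, mu, lam0, mu0, lam1, lamsum, musum, ?_, ?_⟩
  · intro n hn
    have hl : ∀ s : ℂ, 2 ≤ s.re → LSeriesHasSum lam s _ := fun s hs2 => lhs_of lam0 (lamser s hs2)
    have hm : ∀ s : ℂ, 2 ≤ s.re → LSeriesHasSum mu s _ := fun s hs2 => lhs_of mu0 (muser s hs2)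
    have hc : ∀ s : ℂ, 2 ≤ s.re → LSeriesHasSum (LSeries.convolution lam mu) s 1 := by
      intro s hs2
      have h1 := (hl s hs2).convolution (hm s hs2)
      rw [hone s hs2] at h1
      exact h1
    have h2 : (2 : ℝ) ≤ (2 : ℂ).re := by simp
    have hab : LSeries.abscissaOfAbsConv (LSeries.convolution lam mu) < ⊤ :=
      lt_of_le_of_lt (hc 2 h2).LSeriesSummable.abscissaOfAbsConv_le (EReal.coe_lt_top _)
    have hd : LSeries.abscissaOfAbsConv LSeries.delta < ⊤ := by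
      have h3 : LSeriesSummable LSeries.delta 2 := by
        unfold LSeriesSummable
        have e : LSeries.term LSeries.delta 2 = fun n : ℕ => if n = 1 then (1 : ℂ) else 0 :=
          funext fun n => LSeries.term_delta 2 n
        rw [e]
        exact (hasSum_ite_eq 1 (1 : ℂ)).summable
      exact lt_of_le_of_lt h3.abscissaOfAbsConv_le (EReal.coe_lt_top _)
    have heq := LSeries.eq_of_LSeries_eventually_eq hab hd (by
      filter_upwards [eventually_ge_atTop (2 : ℝ)] with y hy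
      have h4 : (2 : ℝ) ≤ ((y : ℝ) : ℂ).re := by simpa using hy
      rw [(hc y h4).LSeries_eq, LSeries_delta]
      rfl) (n := n) (by omega)
    rw [LSeries.convolution_def] at heq
    rw [← LSeries.delta]
    exact heq
  · intro s hs2
    have h1 := lamser s hs2
    have h2 := hinv s hs2
    have h3 : HasProd (fun i => ∏ j, (1 - β i j * (q i : ℂ) ^ (-s))⁻¹)
        (∏' x : (ι × Fin D) × ℕ, (1 + b x.1 ^ 2 ^ x.2 * ((Q x.1 ^ 2 ^ x.2 : ℕ) : ℂ) ^ (-s))) := by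
      refine h2.prod_fiberwise fun i => ?_
      rw [hQ, hb]
      exact hasProd_fintype _
    rw [h3.tprod_eq]
    exact h1

end Pool.Agent.Q151.GB
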