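import Pool.Agent.Q286.GB.Stm2

/-!
# Project GB (helper286), job GRW: polynomial growth in right half-planes
-/

set_option autoImplicit false

namespace Pool.Agent.Q151.GB

open Complex MeasureTheory Filter Topology Set Asymptotics
open scoped ComplexConjugate
open Pool.Agent.Q286.GB

theorem norm_Gamma_le {z : ℂ} (hz : 0 < z.re) : ‖Complex.Gamma z‖ ≤ Real.Gamma z.re := by
  rw [Complex.Gamma_eq_integral hz, Real.Gamma_eq_integral hz]
  unfold Complex.GammaIntegral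
  refine (norm_integral_le_integral_norm _).trans (le_of_eq ?_)
  refine setIntegral_congr_fun measurableSet_Ioi (fun t ht => ?_)
  have ht' : (0 : ℝ) < t := ht
  simp only [norm_mul]
  rw [Complex.norm_cpow_eq_rpow_re_of_pos ht', Complex.norm_real, Real.norm_eq_abs,
    abs_of_pos (Real.exp_pos _)]
  simp

theorem norm_sin_le (z : ℂ) : ‖Complex.sin z‖ ≤ Real.exp |z.im| := by
  unfold Complex.sin
  rw [norm_div, norm_mul, Complex.norm_I, mul_one]
  have h1 : ‖Complex.exp (-z * Complex.I) - Complex.exp (z * Complex.I)‖ ≤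
      Real.exp |z.im| + Real.exp |z.im| := by
    refine (norm_sub_le _ _).trans ?_
    rw [Complex.norm_exp, Complex.norm_exp]
    refine add_le_add (Real.exp_le_exp.mpr ?_) (Real.exp_le_exp.mpr ?_)
    · have : (-z * Complex.I).re = z.im := by simp
      rw [this]; exact le_abs_self _
    · have : (z * Complex.I).re = -z.im := by simp
      rw [this]; exact neg_le_abs _
  have h2 : ‖(2 : ℂ)‖ = 2 := by norm_num
  rw [h2]
  linarith

theorem nn_of_im {z : ℂ} (h : z.im ≠ 0) (m : ℕ) : z ≠ -m := by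
  intro h0
  apply h
  rw [h0]
  simp

/-- crude bound for the reciprocal of the Gamma function, base case -/
theorem invG_base (b : ℝ) : ∃ M : ℝ, 0 ≤ M ∧ ∀ z : ℂ, -b ≤ z.re → z.re ≤ 1 / 2 → 1 ≤ |z.im| →
    ‖(Complex.Gamma z)⁻¹‖ ≤ M * Real.exp (Real.pi * |z.im|) := by
  obtain ⟨M, hM⟩ := (isCompact_Icc (a := (1 / 2 : ℝ)) (b := 1 + b)).exists_bound_of_continuousOn
    (f := Real.Gamma) (fun x hx => (Real.differentiableAt_Gamma (fun m => by
      have := hx.1
      have h2 : (0 : ℝ) ≤ m := Nat.cast_nonneg m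
      linarith)).continuousAt.continuousWithinAt)
  refine ⟨|M|, abs_nonneg _, fun z h1 h2 h3 => ?_⟩
  have him : z.im ≠ 0 := by
    intro h; rw [h, abs_zero] at h3; linarith
  have hR := Complex.Gamma_mul_Gamma_one_sub z
  have hpi : (Real.pi : ℂ) ≠ 0 := by exact_mod_cast Real.pi_ne_zero
  have hsin : Complex.sin (Real.pi * z) ≠ 0 := by
    intro h
    rw [Complex.sin_eq_zero_iff] at h
    obtain ⟨k, hk⟩ := h
    have h5 : z = k := by
      have : (Real.pi : ℂ) * z = Real.pi * k := by rw [hk]; ring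
      exact mul_left_cancel₀ hpi this
    apply him
    have := congrArg Complex.im h5
    simpa using this
  have hne : Complex.Gamma z ≠ 0 := Gamma_ne_zero (nn_of_im him)
  have hinv : (Complex.Gamma z)⁻¹ =
      Complex.Gamma (1 - z) * Complex.sin (Real.pi * z) / Real.pi := by
    rw [inv_eq_iff_eq_inv, inv_div, eq_div_iff]
    · have h6 : Complex.Gamma z * Complex.Gamma (1 - z) *
          Complex.sin (Real.pi * z) = Real.pi := by
        rw [hR]; field_simp
      rw [← mul_assoc]; exact h6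
    · refine mul_ne_zero ?_ hsin
      exact Gamma_ne_zero (nn_of_im (by simpa using him))
  rw [hinv]
  have hn3 : ‖Complex.Gamma (1 - z)‖ ≤ |M| := by
    have hre : (1 - z).re = 1 - z.re := by simp
    refine (norm_Gamma_le (by rw [hre]; linarith)).trans ?_
    rw [hre]
    exact ((le_abs_self _).trans (hM _ ⟨by linarith, by linarith⟩)).trans (le_abs_self _)
  have hn4 : ‖Complex.sin (Real.pi * z)‖ ≤ Real.exp (Real.pi * |z.im|) := by
    refine (norm_sin_le _).trans (le_of_eq ?_)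
    congr 1
    have : ((Real.pi : ℂ) * z).im = Real.pi * z.im := by simp
    rw [this, abs_mul, abs_of_pos Real.pi_pos]
  have hn5 : ‖((Real.pi : ℂ))⁻¹‖ ≤ 1 := by
    rw [norm_inv, Complex.norm_real, Real.norm_eq_abs, abs_of_pos Real.pi_pos]
    apply inv_le_one_of_one_le₀
    linarith [Real.pi_gt_three]
  rw [div_eq_mul_inv, norm_mul, norm_mul]
  have hE : 0 ≤ Real.exp (Real.pi * |z.im|) := (Real.exp_pos _).le
  calc ‖Complex.Gamma (1 - z)‖ * ‖Complex.sin (Real.pi * z)‖ * ‖((Real.pi : ℂ))⁻¹‖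
      ≤ |M| * Real.exp (Real.pi * |z.im|) * 1 := by gcongr
    _ = |M| * Real.exp (Real.pi * |z.im|) := by ring

/-- crude bound for the reciprocal of the Gamma function -/
theorem invG (b : ℝ) : ∃ M : ℝ, 0 ≤ M ∧ ∀ z : ℂ, -b ≤ z.re → 1 ≤ |z.im| →
    ‖(Complex.Gamma z)⁻¹‖ ≤ M * Real.exp (Real.pi * |z.im|) := by
  obtain ⟨M, hM0, hM⟩ := invG_base (|b| + 1)
  have hb := le_abs_self b
  have hb0 := abs_nonneg b
  refine ⟨M, hM0, ?_⟩
  have key : ∀ n : ℕ, ∀ z : ℂ, -(|b| + 1) ≤ z.re → z.re ≤ 1 / 2 + n → 1 ≤ |z.im| →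
      ‖(Complex.Gamma z)⁻¹‖ ≤ M * Real.exp (Real.pi * |z.im|) := by
    intro n
    induction n with
    | zero => intro z h1 h2 h3; exact hM z h1 (by simpa using h2) h3
    | succ n ih =>
      intro z h1 h2 h3
      rcases le_or_gt z.re (1 / 2) with h | h
      · exact hM z h1 h h3
      · have him : (z - 1).im ≠ 0 := by
          intro h'
          have : z.im = 0 := by simpa using h'
          rw [this, abs_zero] at h3; linarith
        have hz1 : z - 1 ≠ 0 := by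
          intro h'; rw [h'] at him; simp at him
        have hG1 : Complex.Gamma z = (z - 1) * Complex.Gamma (z - 1) := by
          have := Complex.Gamma_add_one (z - 1) hz1
          rwa [sub_add_cancel] at this
        have e1 : (z - 1).re = z.re - 1 := by simp
        have e2 : (z - 1).im = z.im := by simp
        have h5 := ih (z - 1) (by rw [e1]; linarith) (by rw [e1]; push_cast at h2; linarith)
          (by rw [e2]; exact h3)
        rw [e2] at h5
        have hn1 : ‖(z - 1)⁻¹‖ ≤ 1 := by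
          rw [norm_inv]
          apply inv_le_one_of_one_le₀
          refine h3.trans ?_
          have := Complex.abs_im_le_norm (z - 1)
          rwa [e2] at this
        rw [hG1, mul_inv, norm_mul]
        calc ‖(z - 1)⁻¹‖ * ‖(Complex.Gamma (z - 1))⁻¹‖ ≤ 1 * ‖(Complex.Gamma (z - 1))⁻¹‖ := by gcongr
          _ ≤ _ := by rw [one_mul]; exact h5
  intro z h1 h3
  obtain ⟨n, hn⟩ := exists_nat_ge z.re
  exact key n z (by linarith) (by linarith) h3

/-- the same for `Γ_ℝ` in strips -/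
theorem invGR (a b : ℝ) : ∃ M : ℝ, 0 ≤ M ∧ ∀ z : ℂ, a ≤ z.re → z.re ≤ b → 2 ≤ |z.im| →
    ‖(Gammaℝ z)⁻¹‖ ≤ M * Real.exp (Real.pi * |z.im|) := by
  obtain ⟨M, hM0, hM⟩ := invG (-(a / 2))
  refine ⟨Real.pi ^ (b / 2) * M, by positivity, fun z h1 h2 h3 => ?_⟩
  have hre : (z / 2).re = z.re / 2 := by simp
  have him : (z / 2).im = z.im / 2 := by simp
  have h4 := hM (z / 2) (by rw [hre]; linarith) (by rw [him, abs_div, abs_two]; linarith)
  rw [him, abs_div, abs_two] at h4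
  unfold Gammaℝ
  rw [mul_inv, norm_mul]
  have h5 : ‖((Real.pi : ℂ) ^ (-z / 2))⁻¹‖ ≤ Real.pi ^ (b / 2) := by
    rw [norm_inv, Complex.norm_cpow_eq_rpow_re_of_pos Real.pi_pos, ← Real.rpow_neg Real.pi_pos.le]
    refine Real.rpow_le_rpow_of_exponent_le (by linarith [Real.pi_gt_three]) ?_
    have : (-z / 2).re = -(z.re / 2) := by simp [neg_div]
    rw [this]
    linarith
  have h6 : Real.exp (Real.pi * (|z.im| / 2)) ≤ Real.exp (Real.pi * |z.im|) := by
    refine Real.exp_le_exp.2 (mul_le_mul_of_nonneg_left ?_ Real.pi_pos.le)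
    linarith [abs_nonneg z.im]
  calc ‖((Real.pi : ℂ) ^ (-z / 2))⁻¹‖ * ‖(Gamma (z / 2))⁻¹‖
      ≤ Real.pi ^ (b / 2) * (M * Real.exp (Real.pi * (|z.im| / 2))) := by gcongr
    _ ≤ Real.pi ^ (b / 2) * (M * Real.exp (Real.pi * |z.im|)) := by gcongr
    _ = _ := by ring

/-- quotients of `Γ_ℝ` -/
theorem ratio (w : ℂ) (k : ℕ) :
    ‖(Gammaℝ w)⁻¹‖ * ‖Gammaℝ (w + 2 * k)‖ ≤ (‖w‖ + 2 * k) ^ k := by
  by_cases h0 : Gammaℝ w = 0
  · rw [h0, inv_zero, norm_zero, zero_mul]
    positivity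
  have hne : ∀ n : ℕ, w + 2 * n ≠ 0 := by
    intro n hn
    apply h0
    rw [Gammaℝ_eq_zero_iff]
    exact ⟨n, eq_neg_of_add_eq_zero_left hn⟩
  have hn0 : 0 < ‖Gammaℝ w‖ := norm_pos_iff.2 h0
  have key : ∀ j : ℕ, j ≤ k → ‖Gammaℝ (w + 2 * j)‖ ≤ ‖Gammaℝ w‖ * (‖w‖ + 2 * k) ^ j := by
    intro j
    induction j with
    | zero => intro _; simp
    | succ j ih =>
      intro hj
      have h1 := ih (by omega)
      have e1 : w + 2 * ((j + 1 : ℕ) : ℂ) = w + 2 * j + 2 := by push_cast; ring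
      rw [e1, Gammaℝ_add_two (hne j), norm_div, norm_div, norm_mul, Complex.norm_real,
        Real.norm_of_nonneg Real.pi_pos.le, Complex.norm_ofNat, div_div]
      have h2 : ‖w + 2 * j‖ ≤ ‖w‖ + 2 * k := by
        refine (norm_add_le _ _).trans ?_
        rw [norm_mul, Complex.norm_ofNat, Complex.norm_natCast]
        have : (j : ℝ) ≤ k := by exact_mod_cast (by omega : j ≤ k)
        linarith
      have h3 : (1 : ℝ) ≤ 2 * Real.pi := by linarith [Real.pi_gt_three]
      calc ‖Gammaℝ (w + 2 * j)‖ * ‖w + 2 * j‖ / (2 * Real.pi) ≤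
          ‖Gammaℝ (w + 2 * j)‖ * ‖w + 2 * j‖ := div_le_self (by positivity) h3
        _ ≤ (‖Gammaℝ w‖ * (‖w‖ + 2 * k) ^ j) * (‖w‖ + 2 * k) := by gcongr
        _ = ‖Gammaℝ w‖ * (‖w‖ + 2 * k) ^ (j + 1) := by ring
  have h1 := key k le_rfl
  rw [norm_inv, inv_mul_le_iff₀ hn0]
  exact h1

section std

variable {m : ℕ} {N : ℝ} {μ : Fin m → ℂ} {Λ : ℂ → ℂ}

theorem LL_diff (h : Std N μ Λ) : Differentiable ℂ (LL μ Λ) := by
  have hdj : ∀ j, Differentiable ℂ (fun s : ℂ => (Gammaℝ (s - μ j))⁻¹) := fun j =>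
    Complex.differentiable_Gammaℝ_inv.comp (differentiable_id.sub_const (μ j))
  exact h.entire.mul (Differentiable.fun_finsetProd fun j _ => hdj j)

/-- the bound on the line `Re s = 1/2 - k` -/
theorem left_line (h : Std N μ Λ) (k : ℕ) (hk : 2 ≤ k) : ∃ C : ℝ, 0 ≤ C ∧ ∀ s : ℂ,
    s.re = 1 / 2 - k → ‖LL μ Λ s‖ ≤ C * (1 + ‖s‖) ^ (m * k) := by
  obtain ⟨C, hC⟩ := h.right
  obtain ⟨ε, hε, hfe⟩ := h.fe
  have hN := h.N_pos
  have hC0 : 0 ≤ C := (norm_nonneg _).trans (hC 2 (by simp))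
  obtain ⟨A, hA⟩ : ∃ A : ℝ, A = 1 + 2 * k + ∑ j, ‖μ j‖ := ⟨_, rfl⟩
  have hμA : ∀ j, ‖μ j‖ ≤ ∑ j, ‖μ j‖ := fun j =>
    Finset.single_le_sum (fun i _ => norm_nonneg (μ i)) (Finset.mem_univ j)
  have hS0 : 0 ≤ ∑ j, ‖μ j‖ := Finset.sum_nonneg fun j _ => norm_nonneg _
  have hk0 : (0 : ℝ) ≤ k := Nat.cast_nonneg k
  have hk2 : (2 : ℝ) ≤ k := by exact_mod_cast hk
  have hA1 : 1 ≤ A := by rw [hA]; linarith
  refine ⟨N ^ (k : ℝ) * C * A ^ (m * k), by positivity, fun s hs => ?_⟩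
  have e1 : 1 - conj s = s + 2 * k := by
    apply Complex.ext
    · simp [hs]
      ring
    · simp
  have hre : (s + 2 * k).re = 1 / 2 + k := by
    simp [hs]
    ring
  have e2 : ‖Λ s‖ = N ^ (k : ℝ) * ‖Λ (s + 2 * k)‖ := by
    rw [hfe s, e1, norm_mul, norm_mul, hε, one_mul, RCLike.norm_conj,
      Complex.norm_cpow_eq_rpow_re_of_pos hN]
    congr 2
    simp [hs]
  have hne : ∀ j, Gammaℝ (s + 2 * k - μ j) ≠ 0 := by
    intro j
    apply Gammaℝ_ne_zero_of_re_pos
    rw [sub_re, hre]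
    have := h.re_lt j
    linarith
  have e3 : Λ (s + 2 * k) = LL μ Λ (s + 2 * k) * ∏ j, Gammaℝ (s + 2 * k - μ j) := by
    unfold LL
    rw [mul_assoc, ← Finset.prod_mul_distrib]
    rw [Finset.prod_eq_one fun j _ => inv_mul_cancel₀ (hne j), mul_one]
  have e4 : ‖LL μ Λ s‖ = N ^ (k : ℝ) * ‖LL μ Λ (s + 2 * k)‖ *
      ∏ j, (‖(Gammaℝ (s - μ j))⁻¹‖ * ‖Gammaℝ (s - μ j + 2 * k)‖) := by
    rw [Finset.prod_mul_distrib]
    conv_lhs => unfold LL
    rw [norm_mul, e2, e3, norm_mul, norm_prod, norm_prod]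
    have e5 : ∀ j, s + 2 * k - μ j = s - μ j + 2 * k := fun j => by ring
    rw [Finset.prod_congr rfl fun j _ => by rw [e5 j]]
    ring
  have h5 : ∏ j, (‖(Gammaℝ (s - μ j))⁻¹‖ * ‖Gammaℝ (s - μ j + 2 * k)‖) ≤
      ∏ _j : Fin m, (A * (1 + ‖s‖)) ^ k := by
    refine Finset.prod_le_prod (fun j _ => by positivity) fun j _ => ?_
    refine (ratio _ k).trans ?_
    refine pow_le_pow_left₀ (by positivity) ?_ k
    have h6 : ‖s - μ j‖ ≤ ‖s‖ + ‖μ j‖ := norm_sub_le _ _
    have h7 := hμA j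
    have h8 := norm_nonneg s
    have h9 : ‖s‖ ≤ A * ‖s‖ := le_mul_of_one_le_left h8 hA1
    rw [mul_add, mul_one]
    have h10 : A = 1 + 2 * k + ∑ j, ‖μ j‖ := hA
    linarith
  rw [Finset.prod_const, Finset.card_univ, Fintype.card_fin, ← pow_mul, mul_pow] at h5
  rw [e4]
  calc N ^ (k : ℝ) * ‖LL μ Λ (s + 2 * k)‖ *
      ∏ j, (‖(Gammaℝ (s - μ j))⁻¹‖ * ‖Gammaℝ (s - μ j + 2 * k)‖) ≤
      N ^ (k : ℝ) * C * (A ^ (k * m) * (1 + ‖s‖) ^ (k * m)) := by
        gcongr
        exact hC _ (by rw [hre]; linarith)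
    _ = N ^ (k : ℝ) * C * A ^ (m * k) * (1 + ‖s‖) ^ (m * k) := by
        rw [mul_comm k m]
        ring

/-- powers against exponentials -/
theorem pow_exp (ρ c : ℝ) (hc : 0 < c) : ∃ K : ℝ, 0 < K ∧ ∀ x : ℝ, 0 ≤ x →
    (1 + x) ^ ρ ≤ K * Real.exp (c * x) := by
  obtain ⟨r, hr⟩ : ∃ r, r = max ρ 1 := ⟨_, rfl⟩
  have hr1 : 1 ≤ r := hr ▸ le_max_right _ _
  have hrρ : ρ ≤ r := hr ▸ le_max_left _ _
  obtain ⟨δ, hδ⟩ : ∃ δ, δ = min 1 (c / r) := ⟨_, rfl⟩
  have hδ0 : 0 < δ := by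
    rw [hδ]
    exact lt_min one_pos (by positivity)
  have hδ1 : δ ≤ 1 := hδ ▸ min_le_left _ _
  have hδc : δ * r ≤ c := by
    have : δ ≤ c / r := hδ ▸ min_le_right _ _
    rwa [le_div_iff₀ (by linarith)] at this
  refine ⟨(1 / δ) ^ r, by positivity, fun x hx => ?_⟩
  have h1 : 1 + x ≤ (1 / δ) * Real.exp (δ * x) := by
    rw [one_div, inv_mul_eq_div, le_div_iff₀ hδ0]
    have := Real.add_one_le_exp (δ * x)
    nlinarith
  calc (1 + x) ^ ρ ≤ (1 + x) ^ r := Real.rpow_le_rpow_of_exponent_le (by linarith) hrρ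
    _ ≤ ((1 / δ) * Real.exp (δ * x)) ^ r := Real.rpow_le_rpow (by linarith) h1 (by linarith)
    _ = (1 / δ) ^ r * Real.exp (δ * x * r) := by
        rw [Real.mul_rpow (by positivity) (Real.exp_pos _).le, ← Real.exp_mul]
    _ ≤ (1 / δ) ^ r * Real.exp (c * x) := by
        refine mul_le_mul_of_nonneg_left (Real.exp_le_exp.2 ?_) (by positivity)
        calc δ * x * r = (δ * r) * x := by ring
          _ ≤ c * x := mul_le_mul_of_nonneg_right hδc hx

/-- the growth condition of Phragmen and Lindelof -/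
theorem strip_growth (h : Std N μ Λ) (a b c : ℝ) (hc : 0 < c) :
    ∃ B T : ℝ, ∀ s : ℂ, a ≤ s.re → s.re ≤ b → T ≤ |s.im| →
      ‖LL μ Λ s‖ ≤ Real.exp (B * Real.exp (c * |s.im|)) := by
  obtain ⟨M, ρ, hM⟩ := h.bdd a b
  obtain ⟨K, hK, hKx⟩ := pow_exp ρ c hc
  obtain ⟨S, hS⟩ : ∃ S : ℝ, S = ∑ j, ‖μ j‖ := ⟨_, rfl⟩
  have hμS : ∀ j, ‖μ j‖ ≤ S := fun j =>
    hS ▸ Finset.single_le_sum (fun i _ => norm_nonneg (μ i)) (Finset.mem_univ j)
  have hS0 : 0 ≤ S := hS ▸ Finset.sum_nonneg fun j _ => norm_nonneg _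
  obtain ⟨G, hG0, hG⟩ := invGR (a - S) (b + S)
  refine ⟨|M| * K + m * (Real.log (G + 1) + Real.pi * (1 / c + S)), 2 + S, fun s h1 h2 h3 => ?_⟩
  have hE : 1 ≤ Real.exp (c * |s.im|) := Real.one_le_exp (by positivity)
  have e1 : ‖Λ s‖ ≤ Real.exp (|M| * K * Real.exp (c * |s.im|)) := by
    refine (hM s h1 h2).trans (Real.exp_le_exp.2 ?_)
    have h4 := hKx |s.im| (abs_nonneg _)
    have h5 : (0 : ℝ) ≤ (1 + |s.im|) ^ ρ := by positivity
    calc M * (1 + |s.im|) ^ ρ ≤ |M| * (1 + |s.im|) ^ ρ := by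
          gcongr
          exact le_abs_self M
      _ ≤ |M| * (K * Real.exp (c * |s.im|)) := by gcongr
      _ = |M| * K * Real.exp (c * |s.im|) := by ring
  have e2 : ∀ j, ‖(Gammaℝ (s - μ j))⁻¹‖ ≤
      Real.exp ((Real.log (G + 1) + Real.pi * (1 / c + S)) * Real.exp (c * |s.im|)) := by
    intro j
    have h4 := Complex.abs_re_le_norm (μ j)
    have h5 := Complex.abs_im_le_norm (μ j)
    have h6 := abs_le.1 (h4.trans (hμS j))
    have h7 := abs_le.1 (h5.trans (hμS j))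
    have h8 : (s - μ j).re = s.re - (μ j).re := sub_re _ _
    have h9 : (s - μ j).im = s.im - (μ j).im := sub_im _ _
    have h10 : |(s - μ j).im| ≤ |s.im| + S := by
      rw [h9]
      exact (abs_sub _ _).trans (add_le_add le_rfl (h5.trans (hμS j)))
    have h11 : |s.im| - S ≤ |(s - μ j).im| := by
      rw [h9]
      have := abs_sub_abs_le_abs_sub s.im (μ j).im
      have h12 := h5.trans (hμS j)
      linarith
    have h12 := hG (s - μ j) (by rw [h8]; linarith) (by rw [h8]; linarith) (by linarith)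
    have h13 : |s.im| ≤ 1 / c * Real.exp (c * |s.im|) := by
      rw [one_div, inv_mul_eq_div, le_div_iff₀ hc]
      have := Real.add_one_le_exp (c * |s.im|)
      linarith
    have hlog : 0 ≤ Real.log (G + 1) := Real.log_nonneg (by linarith)
    calc ‖(Gammaℝ (s - μ j))⁻¹‖ ≤ G * Real.exp (Real.pi * |(s - μ j).im|) := h12
      _ ≤ (G + 1) * Real.exp (Real.pi * (|s.im| + S)) := by
          gcongr
          linarith
      _ = Real.exp (Real.log (G + 1) + Real.pi * (|s.im| + S)) := by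
          rw [Real.exp_add, Real.exp_log (by linarith)]
      _ ≤ Real.exp ((Real.log (G + 1) + Real.pi * (1 / c + S)) * Real.exp (c * |s.im|)) := by
          apply Real.exp_le_exp.2
          have h14 : Real.log (G + 1) ≤ Real.log (G + 1) * Real.exp (c * |s.im|) :=
            le_mul_of_one_le_right hlog hE
          have h15 : S ≤ S * Real.exp (c * |s.im|) := le_mul_of_one_le_right hS0 hE
          have hpi := Real.pi_pos
          have h16 : Real.pi * (|s.im| + S) ≤ Real.pi * ((1 / c + S) * Real.exp (c * |s.im|)) := by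
            gcongr
            linarith
          linarith
  have e3 : ∏ j, ‖(Gammaℝ (s - μ j))⁻¹‖ ≤ Real.exp (m * ((Real.log (G + 1) +
      Real.pi * (1 / c + S)) * Real.exp (c * |s.im|))) := by
    have := Finset.prod_le_prod (s := (Finset.univ : Finset (Fin m)))
      (fun j _ => norm_nonneg ((Gammaℝ (s - μ j))⁻¹)) (fun j _ => e2 j)
    rwa [Finset.prod_const, Finset.card_univ, Fintype.card_fin, ← Real.exp_nat_mul] at this
  unfold LL
  rw [norm_mul, norm_prod]
  calc ‖Λ s‖ * ∏ j, ‖(Gammaℝ (s - μ j))⁻¹‖ ≤ Real.exp (|M| * K * Real.exp (c * |s.im|)) *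
      Real.exp (m * ((Real.log (G + 1) + Real.pi * (1 / c + S)) * Real.exp (c * |s.im|))) := by
        gcongr
    _ = _ := by
        rw [← Real.exp_add]
        congr 1
        ring

/-- JOB GB-GRW -/
theorem t_GRW : S_GRW := by
  intro m N μ Λ h
  refine ⟨LL_diff h, fun B => ?_⟩
  obtain ⟨k, hk⟩ := exists_nat_ge (max (B + 1 / 2) 2)
  have hkB : B + 1 / 2 ≤ k := (le_max_left _ _).trans hk
  have hk2' : (2 : ℝ) ≤ k := (le_max_right _ _).trans hk
  have hk2 : 2 ≤ k := by exact_mod_cast hk2'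
  obtain ⟨C1, hC1, h1⟩ := left_line h k hk2
  obtain ⟨C, hC⟩ := h.right
  have hC0 : 0 ≤ C := (norm_nonneg _).trans (hC 2 (by simp))
  have hlow : ∀ s : ℂ, 1 / 2 - k ≤ s.re → 1 ≤ ‖s + (k + 1)‖ ∧ 1 + ‖s‖ ≤ (k + 3) * ‖s + (k + 1)‖ := by
    intro s hs
    have h2 : 1 ≤ ‖s + (k + 1)‖ := by
      have := Complex.re_le_norm (s + (k + 1))
      simp at this
      linarith
    refine ⟨h2, ?_⟩
    have h3 : ‖s‖ ≤ ‖s + (k + 1)‖ + (k + 1) := by
      have h4 : s = (s + (k + 1)) - (k + 1) := by ring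
      have h5 : ‖((k : ℂ) + 1)‖ = k + 1 := by
        have : ((k : ℂ) + 1) = ((k + 1 : ℕ) : ℂ) := by push_cast; ring
        rw [this, Complex.norm_natCast]
        push_cast
        ring
      calc ‖s‖ = ‖(s + (k + 1)) - (k + 1)‖ := by rw [← h4]
        _ ≤ ‖s + (k + 1)‖ + ‖((k : ℂ) + 1)‖ := norm_sub_le _ _
        _ = _ := by rw [h5]
    nlinarith
  have hne : ∀ s : ℂ, 1 / 2 - k ≤ s.re → s + (k + 1) ≠ 0 := by
    intro s hs h0
    have := (hlow s hs).1
    rw [h0, norm_zero] at this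
    linarith
  obtain ⟨D, hD⟩ : ∃ D : ℝ, D = C1 * (k + 3) ^ (m * k) + C := ⟨_, rfl⟩
  have hD0 : 0 ≤ D := by rw [hD]; positivity
  have hstrip : ∀ s : ℂ, 1 / 2 - k ≤ s.re → s.re ≤ 2 →
      ‖LL μ Λ s / (s + (k + 1)) ^ (m * k)‖ ≤ D := by
    intro s hs1 hs2
    have hw : (0 : ℝ) < 2 - (1 / 2 - k) := by linarith
    refine PhragmenLindelof.vertical_strip (a := 1 / 2 - k) (b := 2)
      (f := fun s => LL μ Λ s / (s + (k + 1)) ^ (m * k)) ?_ ?_ ?_ ?_ hs1 hs2
    · have hcl : closure (re ⁻¹' Ioo (1 / 2 - (k : ℝ)) 2) ⊆ {z : ℂ | 1 / 2 - k ≤ z.re} := by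
        refine closure_minimal (fun z hz => hz.1.le) ?_
        exact isClosed_le continuous_const Complex.continuous_re
      refine DifferentiableOn.diffContOnCl ?_
      intro z hz
      have hz' := hcl hz
      refine DifferentiableAt.differentiableWithinAt ?_
      refine (LL_diff h z).div (by fun_prop) (pow_ne_zero _ (hne z hz'))
    · refine ⟨Real.pi / (2 - (1 / 2 - k)) / 2, ?_, ?_⟩
      · exact half_lt_self (div_pos Real.pi_pos hw)
      · obtain ⟨B', T, hB'⟩ := strip_growth h (1 / 2 - k) 2 (Real.pi / (2 - (1 / 2 - k)) / 2)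
          (by have := Real.pi_pos; positivity)
        refine ⟨B', IsBigO.of_bound 1 ?_⟩
        rw [eventually_inf_principal]
        have hev : ∀ᶠ z : ℂ in comap (_root_.abs ∘ Complex.im) atTop, T ≤ |z.im| := by
          have := (eventually_ge_atTop T).comap (_root_.abs ∘ Complex.im)
          exact this
        filter_upwards [hev] with z hz1 hz2
        have hz2' : z.re ∈ Ioo (1 / 2 - (k : ℝ)) 2 := hz2
        rw [one_mul, Real.norm_of_nonneg (Real.exp_pos _).le, norm_div, norm_pow]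
        have h3 := hB' z hz2'.1.le hz2'.2.le hz1
        refine le_trans ?_ h3
        exact div_le_self (norm_nonneg _) (one_le_pow₀ (hlow z hz2'.1.le).1)
    · intro z hz
      have h3 := hlow z (by rw [hz])
      have h4 : 0 < ‖z + (k + 1)‖ := by linarith
      beta_reduce
      rw [norm_div, norm_pow, div_le_iff₀ (by positivity)]
      calc ‖LL μ Λ z‖ ≤ C1 * (1 + ‖z‖) ^ (m * k) := h1 z hz
        _ ≤ C1 * ((k + 3) * ‖z + (k + 1)‖) ^ (m * k) := by
            gcongr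
            exact h3.2
        _ = C1 * (k + 3) ^ (m * k) * ‖z + (k + 1)‖ ^ (m * k) := by rw [mul_pow]; ring
        _ ≤ D * ‖z + (k + 1)‖ ^ (m * k) := by
            gcongr
            rw [hD]
            linarith
    · intro z hz
      have h3 := hlow z (by rw [hz]; linarith)
      beta_reduce
      rw [norm_div, norm_pow]
      refine (div_le_self (norm_nonneg _) (one_le_pow₀ h3.1)).trans ?_
      refine (hC z (by rw [hz])).trans ?_
      rw [hD]
      have : 0 ≤ C1 * ((k : ℝ) + 3) ^ (m * k) := by positivity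
      linarith
  refine ⟨D * (k + 2) ^ (m * k) + C + 1, ((m * k : ℕ) : ℝ), by positivity, Nat.cast_nonneg _,
    fun s hs => ?_⟩
  rw [Real.rpow_natCast]
  have hs0 := norm_nonneg s
  have hp1 : 1 ≤ (1 + ‖s‖) ^ (m * k) := one_le_pow₀ (by linarith)
  rcases le_total s.re 2 with h2 | h2
  · have h3 := hstrip s (by linarith) h2
    have h4 := hlow s (by linarith)
    have h5 : 0 < ‖s + (k + 1)‖ := by linarith
    rw [norm_div, norm_pow, div_le_iff₀ (by positivity)] at h3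
    have h6 : ‖s + (k + 1)‖ ≤ (k + 2) * (1 + ‖s‖) := by
      have h5 : ‖((k : ℂ) + 1)‖ = k + 1 := by
        have : ((k : ℂ) + 1) = ((k + 1 : ℕ) : ℂ) := by push_cast; ring
        rw [this, Complex.norm_natCast]
        push_cast
        ring
      have h7 := norm_add_le s ((k : ℂ) + 1)
      nlinarith
    calc ‖LL μ Λ s‖ ≤ D * ‖s + (k + 1)‖ ^ (m * k) := h3
      _ ≤ D * ((k + 2) * (1 + ‖s‖)) ^ (m * k) := by gcongr
      _ = D * (k + 2) ^ (m * k) * (1 + ‖s‖) ^ (m * k) := by rw [mul_pow]; ring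
      _ ≤ (D * (k + 2) ^ (m * k) + C + 1) * (1 + ‖s‖) ^ (m * k) := by
          gcongr
          linarith
  · calc ‖LL μ Λ s‖ ≤ C := hC s h2
      _ ≤ (D * (k + 2) ^ (m * k) + C + 1) * 1 := by
          have : 0 ≤ D * ((k : ℝ) + 2) ^ (m * k) := by positivity
          linarith
      _ ≤ (D * (k + 2) ^ (m * k) + C + 1) * (1 + ‖s‖) ^ (m * k) := by
          gcongr

end std

end Pool.Agent.Q151.GB
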