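import Mathlib

/-!
# Project GB (helper286), job EUL, part 1: products of binomials `1 + c M^(-s)` as Dirichlet series
-/

set_option autoImplicit false

namespace Pool.Agent.Q151.GB

open Complex Filter Topology Finset

theorem natprod_cpow {K : Type} (A : Finset K) (M : K → ℕ) (s : ℂ) :
    ((∏ k ∈ A, M k : ℕ) : ℂ) ^ s = ∏ k ∈ A, ((M k : ℕ) : ℂ) ^ s := by
  classical
  induction A using Finset.induction_on with
  | empty => simp
  | insert a A ha ih =>
    rw [Finset.prod_insert ha, Finset.prod_insert ha, Nat.cast_mul, Complex.natCast_mul_natCast_cpow,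
      ih]

theorem norm_cpow_neg {M : ℕ} (hM : 0 < M) {s : ℂ} (hs : 2 ≤ s.re) :
    ‖(M : ℂ) ^ (-s)‖ ≤ (M : ℝ) ^ (-2 : ℝ) := by
  rw [Complex.norm_natCast_cpow_of_pos hM, Complex.neg_re]
  exact Real.rpow_le_rpow_of_exponent_le (by exact_mod_cast hM) (by linarith)

/-- products of binomials -/
theorem series {K : Type} (M : K → ℕ) (c : K → ℂ) (hM : ∀ k, 2 ≤ M k)
    (hs : Summable (fun k => ‖c k‖ * (M k : ℝ) ^ (-2 : ℝ))) :
    ∃ a : ℕ → ℂ, a 0 = 0 ∧ a 1 = 1 ∧ Summable (fun n : ℕ => ‖a n‖ * (n : ℝ) ^ (-2 : ℝ)) ∧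
      ∀ s : ℂ, 2 ≤ s.re → HasSum (fun n : ℕ => a n * (n : ℂ) ^ (-s))
        (∏' k, (1 + c k * (M k : ℂ) ^ (-s))) := by
  classical
  obtain ⟨g, hg⟩ : ∃ g : Finset K → ℕ, g = fun A => ∏ k ∈ A, M k := ⟨_, rfl⟩
  obtain ⟨a, ha⟩ : ∃ a : ℕ → ℂ, a = fun n => ∑' A : g ⁻¹' {n}, ∏ k ∈ A.1, c k := ⟨_, rfl⟩
  have hsum : ∀ s : ℂ, 2 ≤ s.re → Summable (fun k => ‖c k * (M k : ℂ) ^ (-s)‖) := by
    intro s hs2
    refine Summable.of_nonneg_of_le (fun _ => norm_nonneg _) (fun k => ?_) hs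
    rw [norm_mul]
    exact mul_le_mul_of_nonneg_left (norm_cpow_neg (by have := hM k; omega) hs2) (norm_nonneg _)
  have hprod : ∀ (s : ℂ) (A : Finset K), ∏ k ∈ A, (c k * (M k : ℂ) ^ (-s)) =
      (∏ k ∈ A, c k) * ((g A : ℕ) : ℂ) ^ (-s) := by
    intro s A
    rw [Finset.prod_mul_distrib, hg, ← natprod_cpow]
  have hterm : ∀ (s : ℂ) (n : ℕ), ∑' A : g ⁻¹' {n}, ∏ k ∈ A.1, (c k * (M k : ℂ) ^ (-s)) =
      a n * (n : ℂ) ^ (-s) := by
    intro s n
    rw [ha]
    simp only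
    rw [← tsum_mul_right]
    refine tsum_congr fun A => ?_
    rw [hprod]
    have : g A.1 = n := A.2
    rw [this]
  have hser : ∀ s : ℂ, 2 ≤ s.re → HasSum (fun n : ℕ => a n * (n : ℂ) ^ (-s))
        (∏' k, (1 + c k * (M k : ℂ) ^ (-s))) := by
    intro s hs2
    have h1 := summable_finsetProd_of_summable_norm (hsum s hs2)
    rw [tprod_one_add h1]
    have h2 := h1.hasSum.tsum_fiberwise g
    simp only [hterm] at h2
    exact h2
  have h0 : a 0 = 0 := by
    rw [ha]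
    simp only
    have : IsEmpty (g ⁻¹' {0} : Set (Finset K)) := by
      constructor
      rintro ⟨A, hA⟩
      have h1 : g A = 0 := hA
      rw [hg] at h1
      obtain ⟨k, -, hk⟩ := Finset.prod_eq_zero_iff.1 h1
      have := hM k
      omega
    exact tsum_empty
  have h1 : a 1 = 1 := by
    rw [ha]
    simp only
    have hm : (∅ : Finset K) ∈ g ⁻¹' {1} := by
      show g ∅ = 1
      rw [hg]; simp
    have huniq : ∀ A : (g ⁻¹' {1} : Set (Finset K)), A = ⟨∅, hm⟩ := by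
      rintro ⟨A, hA⟩
      apply Subtype.ext
      have h1 : g A = 1 := hA
      rw [hg] at h1
      by_contra hne
      obtain ⟨k, hk⟩ := Finset.nonempty_iff_ne_empty.2 hne
      have h2 : M k ∣ 1 := by
        rw [← h1]
        exact Finset.dvd_prod_of_mem _ hk
      have := Nat.dvd_one.1 h2
      have := hM k
      omega
    rw [tsum_eq_single ⟨∅, hm⟩ fun A hA => absurd (huniq A) hA]
    simp
  refine ⟨a, h0, h1, ?_, hser⟩
  have h2 : (2 : ℝ) ≤ (2 : ℂ).re := by simp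
  have h3 := summable_finsetProd_of_summable_nonneg (fun k => norm_nonneg _) (hsum 2 h2)
  have h4 := (h3.hasSum.tsum_fiberwise g).summable
  refine Summable.of_nonneg_of_le (fun n => by positivity) (fun n => ?_) h4
  have h5 : ‖a n‖ * (n : ℝ) ^ (-2 : ℝ) = ‖a n * (n : ℂ) ^ (-(2 : ℂ))‖ := by
    rcases Nat.eq_zero_or_pos n with h | h
    · rw [h, h0]; simp
    · rw [norm_mul, Complex.norm_natCast_cpow_of_pos h]
      simp
  rw [h5, ← hterm]
  have h6 : Summable (fun A : (g ⁻¹' {n} : Set (Finset K)) => ‖∏ k ∈ A.1, (c k * (M k : ℂ) ^ (-(2 : ℂ)))‖) := by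
    have h7 := h3.subtype (g ⁻¹' {n})
    refine h7.congr fun A => ?_
    simp only [Function.comp]
    rw [norm_prod]
  refine (norm_tsum_le_tsum_norm h6).trans (le_of_eq (tsum_congr fun A => ?_))
  rw [norm_prod]

end Pool.Agent.Q151.GB
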